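import Pool.Agent.P.MP_593b7e_an.Mollify

set_option autoImplicit false
set_option linter.unusedSectionVars false

open MeasureTheory Filter Topology Set Module
open scoped ContDiff ENNReal NNReal Convolution

namespace Pool.Agent.P.MP_593b7e_an

variable {E : Type*} [NormedAddCommGroup E] [InnerProductSpace ℝ E] [FiniteDimensional ℝ E]
  [MeasurableSpace E] [BorelSpace E]
variable {F : Type*} [NormedAddCommGroup F] [NormedSpace ℝ F]

/-- A sequence of bump functions with shrinking supports. -/
noncomputable def bumpSeq (E : Type*) [NormedAddCommGroup E] (k : ℕ) : ContDiffBump (0 : E) :=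
  ⟨1 / (2 * ((k : ℝ) + 1)), 1 / ((k : ℝ) + 1), by positivity, by
    apply one_div_lt_one_div_of_lt (by positivity)
    have : (0 : ℝ) < k + 1 := by positivity
    linarith⟩

lemma bumpSeq_rOut (k : ℕ) : (bumpSeq E k).rOut = 1 / ((k : ℝ) + 1) := rfl

lemma ae_tendsto_mol [CompleteSpace F] {f : E → F} (hf : LocallyIntegrable f volume) :
    ∀ᵐ x ∂(volume : Measure E), Tendsto (fun k => mol (bumpSeq E k) f x) atTop (𝓝 (f x)) := by
  apply ContDiffBump.ae_convolution_tendsto_right_of_locallyIntegrable (K := 2) _ _ hf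
  · exact tendsto_one_div_add_atTop_nhds_zero_nat
  · refine Eventually.of_forall fun k => le_of_eq ?_
    simp only [bumpSeq]
    field_simp

/-- Fatou's lemma for `L^r` norms with a convergent bound. -/
lemma eLpNorm_le_of_tendsto {X : Type*} [MeasurableSpace X] {μ : Measure X} {f : ℕ → X → F}
    {g : X → F} {r : ℝ≥0∞} (hf : ∀ n, AEStronglyMeasurable (f n) μ)
    (hlim : ∀ᵐ x ∂μ, Tendsto (fun n => f n x) atTop (𝓝 (g x))) {b : ℕ → ℝ≥0∞} {B : ℝ≥0∞}
    (hb : ∀ n, eLpNorm (f n) r μ ≤ b n) (hB : Tendsto b atTop (𝓝 B)) : eLpNorm g r μ ≤ B := by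
  refine (Lp.eLpNorm_lim_le_liminf_eLpNorm hf g hlim).trans ?_
  rw [← hB.liminf_eq]
  exact liminf_le_liminf (Eventually.of_forall hb)

lemma eLpNorm_fderiv_eq (w : E → ℝ) (r : ℝ≥0∞) :
    eLpNorm (fderiv ℝ w) r volume = eLpNorm (gradient w) r volume :=
  eLpNorm_congr_norm_ae (Eventually.of_forall fun x => (norm_gradient w x).symm)

/-- Translation estimate for `C¹` functions. -/
lemma eLpNorm_sub_translate_smooth {w : E → ℝ} (hw : ContDiff ℝ 1 w) (y : E) :
    eLpNorm (fun x => w x - w (x - y)) 2 volume ≤ ‖y‖ₑ * eLpNorm (gradient w) 2 volume := by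
  have : IsProbabilityMeasure (volume.restrict (Ioc (0 : ℝ) 1)) := ⟨by simp⟩
  have hc : Continuous (fderiv ℝ w) := hw.continuous_fderiv one_ne_zero
  have key : ∀ x, w x - w (x - y) =
      ∫ s, fderiv ℝ w (x - s • y) y ∂(volume.restrict (Ioc (0 : ℝ) 1)) := by
    intro x
    rw [← intervalIntegral.integral_of_le zero_le_one]
    have hd : ∀ s ∈ uIcc (0 : ℝ) 1, HasDerivAt (fun s : ℝ => -w (x - s • y))
        (fderiv ℝ w (x - s • y) y) s := by
      intro s _
      have h1 : HasDerivAt (fun s : ℝ => x - s • y) (-y) s := by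
        simpa using ((hasDerivAt_id s).smul_const y).const_sub x
      have h2 := ((hw.differentiable one_ne_zero (x - s • y)).hasFDerivAt.comp_hasDerivAt s h1).neg
      rw [map_neg, neg_neg] at h2
      exact h2
    rw [intervalIntegral.integral_eq_sub_of_hasDerivAt hd]
    · simp
      ring
    · apply Continuous.intervalIntegrable
      fun_prop
  simp_rw [key]
  apply eLpNorm_integral_le volume _ (fun x s => fderiv ℝ w (x - s • y) y) _ one_le_two
    ENNReal.ofNat_ne_top
  · refine Eventually.of_forall fun s => ?_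
    rw [← eLpNorm_fderiv_eq, ← eLpNorm_comp_sub_right hc.aestronglyMeasurable (s • y) 2]
    have := eLpNorm_le_nnreal_smul_eLpNorm_of_ae_le_mul (μ := volume)
      (f := fun x => fderiv ℝ w (x - s • y) y) (g := fun x => fderiv ℝ w (x - s • y)) (c := ‖y‖₊)
      (Eventually.of_forall fun x => by
        rw [mul_comm]
        exact ContinuousLinearMap.le_opNNNorm _ _) 2
    exact this
  · apply Continuous.aestronglyMeasurable
    unfold Function.uncurry
    fun_prop

lemma locInt {f : E → F} (hf : MemLp f 2 volume) : LocallyIntegrable f volume :=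
  hf.locallyIntegrable one_le_two

lemma eLpNorm_gradient_mol_le (ρ : ContDiffBump (0 : E)) {f : E → ℝ} {g : E → E}
    (hf : MemLp f 2 volume) (hg : MemLp g 2 volume) (hw : IsWeakGrad f g) :
    eLpNorm (gradient (mol ρ f)) 2 volume ≤ eLpNorm g 2 volume := by
  have : gradient (mol ρ f) = mol ρ g := funext (gradient_mol ρ (locInt hf) hw)
  rw [this]
  exact eLpNorm_mol_le ρ hg.1 one_le_two ENNReal.ofNat_ne_top

lemma contDiff_one_mol (ρ : ContDiffBump (0 : E)) {f : E → F} (hf : MemLp f 2 volume) :
    ContDiff ℝ 1 (mol ρ f) := (contDiff_mol ρ (locInt hf)).of_le (by exact_mod_cast le_top)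

/-- Translation estimate for `H¹` functions. -/
lemma eLpNorm_sub_translate {f : E → ℝ} {g : E → E} (hf : MemLp f 2 volume)
    (hg : MemLp g 2 volume) (hw : IsWeakGrad f g) (y : E) :
    eLpNorm (fun x => f x - f (x - y)) 2 volume ≤ ‖y‖ₑ * eLpNorm g 2 volume := by
  apply eLpNorm_le_of_tendsto
    (f := fun k x => mol (bumpSeq E k) f x - mol (bumpSeq E k) f (x - y))
    (b := fun _ => ‖y‖ₑ * eLpNorm g 2 volume) _ _ _ tendsto_const_nhds
  · intro k
    have := (contDiff_one_mol (bumpSeq E k) hf).continuous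
    apply Continuous.aestronglyMeasurable
    fun_prop
  · have h1 := ae_tendsto_mol (locInt hf)
    have h2 := (measurePreserving_sub_right volume y).quasiMeasurePreserving.ae h1
    filter_upwards [h1, h2] with x a b
    exact a.sub b
  · intro k
    refine (eLpNorm_sub_translate_smooth (contDiff_one_mol _ hf) y).trans ?_
    gcongr
    exact eLpNorm_gradient_mol_le _ hf hg hw

lemma integrable_bump_sub (ρ : ContDiffBump (0 : E)) {f : E → F} (hf : MemLp f 2 volume) (x : E) :
    Integrable (fun t => f (x - t)) (bumpMeasure ρ) := by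
  rw [bumpMeasure, integrable_withDensity_iff_integrable_smul'
    (ρ.continuous_normed.measurable.ennreal_ofReal) (by simp)]
  have := (ρ.hasCompactSupport_normed (μ := volume)).convolutionExists_left
    (ContinuousLinearMap.lsmul ℝ ℝ) ρ.continuous_normed (locInt hf) x
  refine this.integrable.congr (Eventually.of_forall fun t => ?_)
  simp [ENNReal.toReal_ofReal (ρ.nonneg_normed t)]

/-- The mollification is `L²`-close to an `H¹` function. -/
lemma eLpNorm_sub_mol (ρ : ContDiffBump (0 : E)) {f : E → ℝ} {g : E → E} (hf : MemLp f 2 volume)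
    (hg : MemLp g 2 volume) (hw : IsWeakGrad f g) :
    eLpNorm (fun x => f x - mol ρ f x) 2 volume ≤ ENNReal.ofReal ρ.rOut * eLpNorm g 2 volume := by
  have key : ∀ x, f x - mol ρ f x = ∫ t, (f x - f (x - t)) ∂(bumpMeasure ρ) := by
    intro x
    rw [integral_sub (integrable_const _) (integrable_bump_sub ρ hf x), mol_eq]
    simp
  simp_rw [key]
  apply eLpNorm_integral_le volume _ (fun x t => f x - f (x - t)) _ one_le_two
    ENNReal.ofNat_ne_top
  · filter_upwards [ae_bumpMeasure ρ] with t ht
    refine (eLpNorm_sub_translate hf hg hw t).trans ?_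
    gcongr
    rw [← ofReal_norm]
    exact ENNReal.ofReal_le_ofReal ht
  · exact hf.1.comp_fst.sub (aesm_sub hf.1 _)

/-- The Sobolev inequality for `C¹` functions in `L²`. -/
lemma sobolev_smooth {q : ℝ≥0} (hn : 0 < finrank ℝ E)
    (hq : (q : ℝ)⁻¹ = (2 : ℝ≥0)⁻¹ - (finrank ℝ E : ℝ)⁻¹) {w : E → ℝ} (hw : ContDiff ℝ 1 w)
    (hw2 : eLpNorm w 2 volume ≠ ⊤) :
    eLpNorm w q volume ≤ SNormLESNormFDerivOfEqConst ℝ (volume : Measure E) (2 : ℝ≥0) *
      eLpNorm (gradient w) 2 volume := by
  set K := SNormLESNormFDerivOfEqConst ℝ (volume : Measure E) (2 : ℝ≥0)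
  let χ : ContDiffBump (0 : E) := ⟨1, 2, one_pos, one_lt_two⟩
  have hχ1 : ContDiff ℝ 1 χ := χ.contDiff
  obtain ⟨C, hC⟩ := (χ.hasCompactSupport.fderiv ℝ).exists_bound_of_continuous
    (hχ1.continuous_fderiv one_ne_zero)
  have hC0 : 0 ≤ C := (norm_nonneg _).trans (hC 0)
  let c : ℕ → ℝ := fun k => 1 / ((k : ℝ) + 1)
  have hcpos : ∀ k, 0 < c k := fun k => by positivity
  have hc0 : Tendsto c atTop (𝓝 0) := tendsto_one_div_add_atTop_nhds_zero_nat
  have hsm : ∀ k, ContDiff ℝ 1 (fun x => χ (c k • x)) := fun k =>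
    hχ1.comp (contDiff_const_smul _)
  have hcs : ∀ k, HasCompactSupport (fun x => χ (c k • x)) := fun k =>
    χ.hasCompactSupport.comp_homeomorph (Homeomorph.smulOfNeZero (c k) (hcpos k).ne')
  refine eLpNorm_le_of_tendsto (f := fun k x => χ (c k • x) * w x)
    (b := fun k => K * (eLpNorm (gradient w) 2 volume +
      ENNReal.ofReal (c k * C) * eLpNorm w 2 volume)) ?_ ?_ ?_ ?_
  · exact fun k => ((hsm k).mul hw).continuous.aestronglyMeasurable
  · refine Eventually.of_forall fun x => ?_
    have h1 : Tendsto (fun k => c k • x) atTop (𝓝 0) := by simpa using hc0.smul_const x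
    have h2 := (χ.continuous.tendsto 0).comp h1
    have h3 : χ 0 = 1 := χ.one_of_mem_closedBall (by simp [χ])
    rw [h3] at h2
    simpa using h2.mul_const (w x)
  · intro k
    refine (eLpNorm_le_eLpNorm_fderiv_of_eq volume ((hsm k).mul hw) (hcs k).mul_right
      (p := 2) one_le_two hn hq).trans ?_
    gcongr
    have hb : ∀ x, ‖fderiv ℝ (fun x => χ (c k • x) * w x) x‖ ≤
        ‖(fun x => ‖gradient w x‖) x + (fun x => c k * C * ‖w x‖) x‖ := by
      intro x
      have d1 : HasFDerivAt (fun x => χ (c k • x))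
          ((fderiv ℝ χ (c k • x)).comp (c k • ContinuousLinearMap.id ℝ E)) x :=
        (hχ1.differentiable one_ne_zero _).hasFDerivAt.comp x ((hasFDerivAt_id x).const_smul _)
      have d2 := (hw.differentiable one_ne_zero x).hasFDerivAt
      rw [(d1.fun_mul d2).fderiv]
      have hck := hcpos k
      refine (norm_add_le _ _).trans (le_trans ?_ (le_abs_self _))
      beta_reduce
      apply add_le_add
      · rw [norm_smul, norm_gradient]
        apply mul_le_of_le_one_left (norm_nonneg _)
        rw [Real.norm_of_nonneg (χ.nonneg)]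
        exact χ.le_one
      · rw [norm_smul, mul_comm]
        gcongr
        refine (ContinuousLinearMap.opNorm_comp_le _ _).trans ?_
        rw [mul_comm, norm_smul, Real.norm_of_nonneg hck.le]
        gcongr
        · exact mul_le_of_le_one_right hck.le ContinuousLinearMap.norm_id_le
        · exact hC _
    refine (eLpNorm_mono hb).trans ?_
    refine (eLpNorm_add_le (continuous_gradient hw).norm.aestronglyMeasurable
      (continuous_const.mul hw.continuous.norm).aestronglyMeasurable (by simp)).trans ?_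
    apply add_le_add
    · simp
    · have := eLpNorm_le_mul_eLpNorm_of_ae_le_mul (μ := volume)
        (f := fun x => c k * C * ‖w x‖) (g := w) (c := c k * C)
        (Eventually.of_forall fun x => by
          rw [Real.norm_of_nonneg (by have := hcpos k; positivity)]) 2
      exact this
  · have h1 : Tendsto (fun k => ENNReal.ofReal (c k * C)) atTop (𝓝 0) := by
      have := ENNReal.tendsto_ofReal (hc0.mul_const C)
      simpa using this
    have h2 := ENNReal.Tendsto.mul_const (b := eLpNorm w 2 volume) h1 (Or.inr hw2)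
    have h3 := (tendsto_const_nhds (x := eLpNorm (gradient w) 2 volume)).add h2
    have h4 := ENNReal.Tendsto.const_mul (a := (K : ℝ≥0∞)) h3 (Or.inr ENNReal.coe_ne_top)
    simpa using h4

/-- The Sobolev inequality for `H¹` functions. -/
lemma sobolev_weak {q : ℝ≥0} (hn : 0 < finrank ℝ E)
    (hq : (q : ℝ)⁻¹ = (2 : ℝ≥0)⁻¹ - (finrank ℝ E : ℝ)⁻¹) {f : E → ℝ} {g : E → E}
    (hf : MemLp f 2 volume) (hg : MemLp g 2 volume) (hw : IsWeakGrad f g) :
    eLpNorm f q volume ≤ SNormLESNormFDerivOfEqConst ℝ (volume : Measure E) (2 : ℝ≥0) *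
      eLpNorm g 2 volume := by
  apply eLpNorm_le_of_tendsto (f := fun k => mol (bumpSeq E k) f) _ (ae_tendsto_mol (locInt hf))
    _ tendsto_const_nhds
  · exact fun k => (contDiff_one_mol _ hf).continuous.aestronglyMeasurable
  · intro k
    refine (sobolev_smooth hn hq (contDiff_one_mol _ hf) ?_).trans ?_
    · exact ((eLpNorm_mol_le _ hf.1 one_le_two ENNReal.ofNat_ne_top).trans_lt hf.2).ne
    · gcongr
      exact eLpNorm_gradient_mol_le _ hf hg hw

end Pool.Agent.P.MP_593b7e_an
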