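import Pool.Agent.P.MP_593b7e_an.Sobolev

set_option autoImplicit false
set_option linter.unusedSectionVars false

open MeasureTheory Filter Topology Set Module
open scoped ContDiff ENNReal NNReal Convolution

namespace Pool.Agent.P.MP_593b7e_an

section General

variable {X : Type*} [MeasurableSpace X] {μ : Measure X}
variable {F G : Type*} [NormedAddCommGroup F] [NormedAddCommGroup G]

lemma eLpNorm_two_eq {f : X → F} (hf : MemLp f 2 μ) :
    eLpNorm f 2 μ = ENNReal.ofReal (√(∫ x, ‖f x‖ ^ 2 ∂μ)) := by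
  rw [hf.eLpNorm_eq_integral_rpow_norm two_ne_zero ENNReal.ofNat_ne_top, Real.sqrt_eq_rpow]
  simp

lemma eLpNorm_two_le {f : X → F} (hf : MemLp f 2 μ) {C : ℝ} (hC : ∫ x, ‖f x‖ ^ 2 ∂μ ≤ C) :
    eLpNorm f 2 μ ≤ ENNReal.ofReal (√C) := by
  rw [eLpNorm_two_eq hf]
  exact ENNReal.ofReal_le_ofReal (Real.sqrt_le_sqrt hC)

lemma integral_sq_le_of_eLpNorm_le {f : X → F} (hf : AEStronglyMeasurable f μ) {c : ℝ}
    (hc : 0 ≤ c) (h : eLpNorm f 2 μ ≤ ENNReal.ofReal c) :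
    MemLp f 2 μ ∧ ∫ x, ‖f x‖ ^ 2 ∂μ ≤ c ^ 2 := by
  have h1 : MemLp f 2 μ := ⟨hf, h.trans_lt ENNReal.ofReal_lt_top⟩
  refine ⟨h1, ?_⟩
  rw [eLpNorm_two_eq h1, ENNReal.ofReal_le_ofReal_iff hc] at h
  exact (Real.sqrt_le_left hc).1 h

lemma eLpNorm_ofReal_eq {f : X → F} {r : ℝ} (hr : 0 < r) (hf : MemLp f (ENNReal.ofReal r) μ) :
    eLpNorm f (ENNReal.ofReal r) μ = ENNReal.ofReal ((∫ x, ‖f x‖ ^ r ∂μ) ^ r⁻¹) := by
  rw [hf.eLpNorm_eq_integral_rpow_norm (by simpa using hr) ENNReal.ofReal_ne_top,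
    ENNReal.toReal_ofReal hr.le]

lemma integrable_rpow_of_memLp {f : X → F} {r : ℝ} (hr : 0 < r)
    (hf : MemLp f (ENNReal.ofReal r) μ) : Integrable (fun x => ‖f x‖ ^ r) μ := by
  have := hf.integrable_norm_rpow (by simpa using hr) ENNReal.ofReal_ne_top
  rwa [ENNReal.toReal_ofReal hr.le] at this

lemma integral_rpow_le_of_eLpNorm_le {f : X → F} (hf : AEStronglyMeasurable f μ) {r c : ℝ}
    (hr : 0 < r) (hc : 0 ≤ c) (h : eLpNorm f (ENNReal.ofReal r) μ ≤ ENNReal.ofReal c) :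
    Integrable (fun x => ‖f x‖ ^ r) μ ∧ ∫ x, ‖f x‖ ^ r ∂μ ≤ c ^ r := by
  have h1 : MemLp f (ENNReal.ofReal r) μ := ⟨hf, h.trans_lt ENNReal.ofReal_lt_top⟩
  refine ⟨integrable_rpow_of_memLp hr h1, ?_⟩
  rw [eLpNorm_ofReal_eq hr h1, ENNReal.ofReal_le_ofReal_iff hc] at h
  have h0 : 0 ≤ ∫ x, ‖f x‖ ^ r ∂μ := integral_nonneg fun x => by positivity
  calc ∫ x, ‖f x‖ ^ r ∂μ = ((∫ x, ‖f x‖ ^ r ∂μ) ^ r⁻¹) ^ r :=
        (Real.rpow_inv_rpow h0 hr.ne').symm
    _ ≤ c ^ r := by gcongr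

lemma integrable_inner_of_memLp [InnerProductSpace ℝ F] {f g : X → F} (hf : MemLp f 2 μ)
    (hg : MemLp g 2 μ) : Integrable (fun x => inner ℝ (f x) (g x)) μ := by
  refine (L2.integrable_inner (𝕜 := ℝ) (hf.toLp f) (hg.toLp g)).congr ?_
  filter_upwards [hf.coeFn_toLp, hg.coeFn_toLp] with x a b
  rw [a, b]

lemma inner_toLp [InnerProductSpace ℝ F] {f g : X → F} (hf : MemLp f 2 μ) (hg : MemLp g 2 μ) :
    inner ℝ (hf.toLp f) (hg.toLp g) = ∫ x, inner ℝ (f x) (g x) ∂μ := by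
  rw [L2.inner_def]
  apply integral_congr_ae
  filter_upwards [hf.coeFn_toLp, hg.coeFn_toLp] with x a b
  rw [a, b]

lemma norm_toLp_two {f : X → F} (hf : MemLp f 2 μ) :
    ‖hf.toLp f‖ = √(∫ x, ‖f x‖ ^ 2 ∂μ) := by
  rw [Lp.norm_toLp, eLpNorm_two_eq hf, ENNReal.toReal_ofReal (Real.sqrt_nonneg _)]

lemma abs_integral_inner_le [InnerProductSpace ℝ F] {f g : X → F} (hf : MemLp f 2 μ)
    (hg : MemLp g 2 μ) :
    |∫ x, inner ℝ (f x) (g x) ∂μ| ≤ √(∫ x, ‖f x‖ ^ 2 ∂μ) * √(∫ x, ‖g x‖ ^ 2 ∂μ) := by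
  rw [← inner_toLp hf hg, ← norm_toLp_two hf, ← norm_toLp_two hg]
  exact abs_real_inner_le_norm _ _

/-- Weak sequential compactness of bounded sets of `L²`. -/
lemma weak_subseq [InnerProductSpace ℝ F] [CompleteSpace F] [TopologicalSpace.SeparableSpace F]
    [IsSeparable μ] {f : ℕ → X → F} (hf : ∀ n, MemLp (f n) 2 μ) {C : ℝ}
    (hC : ∀ n, ∫ x, ‖f n x‖ ^ 2 ∂μ ≤ C) :
    ∃ φ : ℕ → ℕ, StrictMono φ ∧ ∃ g : X → F, MemLp g 2 μ ∧ ∀ h : X → F, MemLp h 2 μ →
      Tendsto (fun n => ∫ x, inner ℝ (f (φ n) x) (h x) ∂μ) atTop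
        (𝓝 (∫ x, inner ℝ (g x) (h x) ∂μ)) := by
  have : Fact ((2 : ℝ≥0∞) ≠ ⊤) := ⟨ENNReal.ofNat_ne_top⟩
  let x : ℕ → WeakDual ℝ (Lp F 2 μ) := fun n =>
    StrongDual.toWeakDual (InnerProductSpace.toDual ℝ (Lp F 2 μ) ((hf n).toLp (f n)))
  have hx : ∀ n, x n ∈ WeakDual.toStrongDual ⁻¹'
      Metric.closedBall (0 : StrongDual ℝ (Lp F 2 μ)) (√C) := by
    intro n
    refine (mem_closedBall_zero_iff (E := StrongDual ℝ (Lp F 2 μ))).2 ?_
    change ‖InnerProductSpace.toDual ℝ (Lp F 2 μ) ((hf n).toLp (f n))‖ ≤ _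
    rw [LinearIsometryEquiv.norm_map, norm_toLp_two]
    exact Real.sqrt_le_sqrt (hC n)
  obtain ⟨a, -, φ, hφ, hlim⟩ := WeakDual.isSeqCompact_closedBall ℝ (Lp F 2 μ) 0 (√C) hx
  let G := (InnerProductSpace.toDual ℝ (Lp F 2 μ)).symm (WeakDual.toStrongDual a)
  refine ⟨φ, hφ, G, Lp.memLp G, fun h hh => ?_⟩
  have h1 := ((WeakDual.eval_continuous (hh.toLp h)).tendsto a).comp hlim
  have h2 : a (hh.toLp h) = ∫ x, inner ℝ (G x) (h x) ∂μ := by
    rw [← inner_toLp (Lp.memLp G) hh, Lp.toLp_coeFn]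
    exact (InnerProductSpace.toDual_symm_apply (x := hh.toLp h)
      (y := WeakDual.toStrongDual a)).symm
  rw [← h2]
  refine h1.congr fun n => ?_
  rw [← inner_toLp (hf (φ n)) hh]
  rfl

end General

variable {E : Type*} [NormedAddCommGroup E] [InnerProductSpace ℝ E] [FiniteDimensional ℝ E]
  [MeasurableSpace E] [BorelSpace E]

lemma memLp_bump_sub (ρ : ContDiffBump (0 : E)) (x : E) :
    MemLp (fun t => ρ.normed volume (x - t)) 2 volume := by
  apply Continuous.memLp_of_hasCompactSupport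
  · exact ρ.continuous_normed.comp (continuous_const.sub continuous_id)
  · exact ρ.hasCompactSupport_normed.comp_homeomorph (Homeomorph.subLeft x)

lemma mol_eq_inner (ρ : ContDiffBump (0 : E)) (f : E → ℝ) (x : E) :
    mol ρ f x = ∫ t, inner ℝ (f t) (ρ.normed volume (x - t)) := by
  rw [mol_eq_swap]
  simp

lemma abs_mol_le (ρ : ContDiffBump (0 : E)) {f : E → ℝ} (hf : MemLp f 2 volume) (x : E) :
    |mol ρ f x| ≤ √(∫ t, ‖f t‖ ^ 2) * √(∫ t, ‖ρ.normed volume t‖ ^ 2) := by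
  rw [mol_eq_inner]
  refine (abs_integral_inner_le hf (memLp_bump_sub ρ x)).trans (le_of_eq ?_)
  congr 2
  exact integral_sub_left_eq_self (fun t => ‖ρ.normed volume t‖ ^ 2) volume x

/-- A finite measure below and equivalent to Lebesgue measure. -/
lemma exists_weight_measure : ∃ ν : Measure E, IsFiniteMeasure ν ∧ ν ≤ volume ∧ volume ≪ ν := by
  let r : ℝ := finrank ℝ E + 1
  have hr : (finrank ℝ E : ℝ) < r := by simp [r]
  have hr0 : 0 ≤ r := by positivity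
  have hm : Measurable (fun x : E => ENNReal.ofReal ((1 + ‖x‖) ^ (-r))) := by fun_prop
  refine ⟨volume.withDensity (fun x => ENNReal.ofReal ((1 + ‖x‖) ^ (-r))), ?_, ?_, ?_⟩
  · exact isFiniteMeasure_withDensity_ofReal (integrable_one_add_norm hr).2
  · conv_rhs => rw [← withDensity_one (μ := (volume : Measure E))]
    apply withDensity_mono
    refine Eventually.of_forall fun x => ?_
    simp only [Pi.one_apply, ENNReal.ofReal_le_one]
    exact Real.rpow_le_one_of_one_le_of_nonpos (by simp) (by linarith)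
  · apply withDensity_absolutelyContinuous' hm.aemeasurable
    refine Eventually.of_forall fun x => ?_
    simp only [ne_eq, ENNReal.ofReal_eq_zero, not_le]
    positivity

/-- Rellich's theorem in the form needed: weak convergence of an `H¹`-bounded sequence gives
almost everywhere convergence along a subsequence. -/
lemma rellich_ae {f : ℕ → E → ℝ} {g : ℕ → E → E} {f₀ : E → ℝ} {g₀ : E → E} {C : ℝ}
    (hf : ∀ n, MemLp (f n) 2 volume) (hg : ∀ n, MemLp (g n) 2 volume)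
    (hw : ∀ n, IsWeakGrad (f n) (g n)) (hf₀ : MemLp f₀ 2 volume) (hg₀ : MemLp g₀ 2 volume)
    (hw₀ : IsWeakGrad f₀ g₀) (hCf : ∀ n, ∫ x, ‖f n x‖ ^ 2 ≤ C) (hCg : ∀ n, ∫ x, ‖g n x‖ ^ 2 ≤ C)
    (hweak : ∀ h : E → ℝ, MemLp h 2 volume →
      Tendsto (fun n => ∫ x, inner ℝ (f n x) (h x)) atTop (𝓝 (∫ x, inner ℝ (f₀ x) (h x)))) :
    ∃ φ : ℕ → ℕ, StrictMono φ ∧
      ∀ᵐ x ∂(volume : Measure E), Tendsto (fun n => f (φ n) x) atTop (𝓝 (f₀ x)) := by
  obtain ⟨ν, hν, hle, hac⟩ := exists_weight_measure (E := E)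
  have hνac : ν ≪ volume := Measure.absolutelyContinuous_of_le hle
  have hmid : ∀ ρ : ContDiffBump (0 : E),
      Tendsto (fun n => eLpNorm (fun x => mol ρ (f n) x - mol ρ f₀ x) 2 ν) atTop (𝓝 0) := by
    intro ρ
    set R := √(∫ t, ‖ρ.normed volume t‖ ^ 2) with hR
    set M := √C * R + √(∫ t, ‖f₀ t‖ ^ 2) * R with hM
    have hb : ∀ n x, ‖mol ρ (f n) x - mol ρ f₀ x‖ ≤ M := by
      intro n x
      refine (norm_sub_le _ _).trans (add_le_add ?_ (abs_mol_le ρ hf₀ x))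
      refine (abs_mol_le ρ (hf n) x).trans ?_
      gcongr
      exact hCf n
    have hcont : ∀ n, Continuous (fun x => mol ρ (f n) x - mol ρ f₀ x) := fun n =>
      (contDiff_one_mol ρ (hf n)).continuous.sub (contDiff_one_mol ρ hf₀).continuous
    have hmem : ∀ n, MemLp (fun x => mol ρ (f n) x - mol ρ f₀ x) 2 ν := fun n =>
      MemLp.of_bound (hcont n).aestronglyMeasurable M (Eventually.of_forall (hb n))
    have h1 : Tendsto (fun n => ∫ x, ‖mol ρ (f n) x - mol ρ f₀ x‖ ^ 2 ∂ν) atTop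
        (𝓝 (∫ _x : E, (0 : ℝ) ∂ν)) := by
      apply tendsto_integral_of_dominated_convergence (fun _ => M ^ 2)
      · exact fun n => ((hcont n).norm.pow 2).aestronglyMeasurable
      · exact integrable_const _
      · intro n
        refine Eventually.of_forall fun x => ?_
        rw [Real.norm_of_nonneg (by positivity)]
        gcongr
        exact hb n x
      · refine Eventually.of_forall fun x => ?_
        have := hweak _ (memLp_bump_sub ρ x)
        simp_rw [← mol_eq_inner] at this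
        have h2 := ((this.sub_const (mol ρ f₀ x)).norm).pow 2
        simpa using h2
    simp_rw [eLpNorm_two_eq (hmem _)]
    have h3 := ENNReal.tendsto_ofReal h1.sqrt
    simpa using h3
  have hmain : Tendsto (fun n => eLpNorm (f n - f₀) 2 ν) atTop (𝓝 0) := by
    rw [ENNReal.tendsto_nhds_zero]
    intro ε hε
    set G := ENNReal.ofReal (√C) + eLpNorm g₀ 2 volume with hG
    have hGt : G ≠ ⊤ := ENNReal.add_ne_top.2 ⟨ENNReal.ofReal_ne_top, hg₀.2.ne⟩
    have h1 : Tendsto (fun k : ℕ => ENNReal.ofReal (1 / ((k : ℝ) + 1)) * G) atTop (𝓝 0) := by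
      have := ENNReal.tendsto_ofReal tendsto_one_div_add_atTop_nhds_zero_nat
      rw [ENNReal.ofReal_zero] at this
      simpa using ENNReal.Tendsto.mul_const (b := G) this (Or.inr hGt)
    have hε2 : 0 < ε / 2 := ENNReal.half_pos hε.ne'
    obtain ⟨k, hk⟩ := ((ENNReal.tendsto_nhds_zero.1 h1) (ε / 2) hε2).exists
    set ρ := bumpSeq E k
    filter_upwards [(ENNReal.tendsto_nhds_zero.1 (hmid ρ)) (ε / 2) hε2] with n hn
    have hdec : f n - f₀ = ((fun x => f n x - mol ρ (f n) x) - (fun x => f₀ x - mol ρ f₀ x)) +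
        (fun x => mol ρ (f n) x - mol ρ f₀ x) := by
      ext x
      simp only [Pi.sub_apply, Pi.add_apply]
      ring
    have m1 : AEStronglyMeasurable (fun x => f n x - mol ρ (f n) x) ν :=
      ((hf n).1.sub (contDiff_one_mol ρ (hf n)).continuous.aestronglyMeasurable).mono_ac hνac
    have m2 : AEStronglyMeasurable (fun x => f₀ x - mol ρ f₀ x) ν :=
      (hf₀.1.sub (contDiff_one_mol ρ hf₀).continuous.aestronglyMeasurable).mono_ac hνac
    have m3 : AEStronglyMeasurable (fun x => mol ρ (f n) x - mol ρ f₀ x) ν :=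
      ((contDiff_one_mol ρ (hf n)).continuous.sub
        (contDiff_one_mol ρ hf₀).continuous).aestronglyMeasurable
    rw [hdec]
    refine (eLpNorm_add_le (m1.sub m2) m3 one_le_two).trans ?_
    rw [← ENNReal.add_halves ε]
    refine add_le_add ((eLpNorm_sub_le m1 m2 one_le_two).trans (le_trans ?_ hk)) hn
    rw [hG, mul_add]
    apply add_le_add
    · refine (eLpNorm_mono_measure _ hle).trans ((eLpNorm_sub_mol ρ (hf n) (hg n) (hw n)).trans ?_)
      gcongr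
      · exact le_rfl
      · exact eLpNorm_two_le (hg n) (hCg n)
    · exact (eLpNorm_mono_measure _ hle).trans (eLpNorm_sub_mol ρ hf₀ hg₀ hw₀)
  have hm := tendstoInMeasure_of_tendsto_eLpNorm two_ne_zero
    (fun n => (hf n).1.mono_ac hνac) (hf₀.1.mono_ac hνac) hmain
  obtain ⟨φ, hφ, hae⟩ := hm.exists_seq_tendsto_ae
  exact ⟨φ, hφ, hac.ae_le hae⟩

end Pool.Agent.P.MP_593b7e_an
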