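import Mathlib

set_option autoImplicit false

open MeasureTheory
open scoped ContDiff

namespace Pool.Agent.P.MP_593b7e_an

/-- An element of `H¹(ℝ^N)`: a real `L²` function together with a weak gradient in `L²`. -/
structure H1 (N : ℕ) where
  fn : EuclideanSpace ℝ (Fin N) → ℝ
  grad : EuclideanSpace ℝ (Fin N) → EuclideanSpace ℝ (Fin N)
  fn_memLp : MemLp fn 2 volume
  grad_memLp : MemLp grad 2 volume
  weak : ∀ φ : EuclideanSpace ℝ (Fin N) → ℝ, ContDiff ℝ ∞ φ → HasCompactSupport φ →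
    ∫ x, fn x • gradient φ x = -∫ x, φ x • grad x

/-- The critical Sobolev exponent `2* = 2N/(N-2)`. -/
noncomputable def crit (N : ℕ) : ℝ := 2 * N / (N - 2)

/-- The energy `I(u,v)`. -/
noncomputable def energy {N : ℕ} (p μ ν lam : ℝ) (u v : H1 N) : ℝ :=
  (1 / 2) * (∫ x, (‖u.grad x‖ ^ 2 + μ * u.fn x ^ 2))
    + (1 / 2) * (∫ x, (‖v.grad x‖ ^ 2 + ν * v.fn x ^ 2))
    - (1 / (p + 1)) * (∫ x, |u.fn x| ^ (p + 1))
    - (1 / crit N) * (∫ x, |v.fn x| ^ crit N)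
    - lam * ∫ x, u.fn x * v.fn x

/-- The derivative `I'(u,v)(φ,ψ)`. -/
noncomputable def energyDeriv {N : ℕ} (p μ ν lam : ℝ) (u v φ ψ : H1 N) : ℝ :=
  (∫ x, (inner ℝ (u.grad x) (φ.grad x) + μ * u.fn x * φ.fn x))
    + (∫ x, (inner ℝ (v.grad x) (ψ.grad x) + ν * v.fn x * ψ.fn x))
    - (∫ x, |u.fn x| ^ (p - 1) * u.fn x * φ.fn x)
    - (∫ x, |v.fn x| ^ (crit N - 2) * v.fn x * ψ.fn x)
    - lam * ∫ x, (u.fn x * ψ.fn x + v.fn x * φ.fn x)

/-- The Nehari set `M`. -/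
def nehari (N : ℕ) (p μ ν lam : ℝ) : Set (H1 N × H1 N) :=
  {w | ¬ (w.1.fn =ᵐ[volume] 0 ∧ w.2.fn =ᵐ[volume] 0) ∧ energyDeriv p μ ν lam w.1 w.2 w.1 w.2 = 0}

/-- The level `m = inf_M I`. -/
noncomputable def level (N : ℕ) (p μ ν lam : ℝ) : ℝ :=
  sInf ((fun w : H1 N × H1 N => energy p μ ν lam w.1 w.2) '' nehari N p μ ν lam)

/-- The system has a ground state: a critical point of `I` lying in `M` with energy `m`. -/
def HasGroundState (N : ℕ) (p μ ν lam : ℝ) : Prop :=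
  ∃ u v : H1 N, (u, v) ∈ nehari N p μ ν lam ∧
    (∀ φ ψ : H1 N, energyDeriv p μ ν lam u v φ ψ = 0) ∧
    energy p μ ν lam u v = level N p μ ν lam

end Pool.Agent.P.MP_593b7e_an
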