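import Pool.Agent.P.MP_593b7e_an.Compact

set_option autoImplicit false
set_option linter.unusedSectionVars false

open MeasureTheory Filter Topology Set Module
open scoped ContDiff ENNReal NNReal Convolution

namespace Pool.Agent.P.MP_593b7e_an

lemma add_rpow_le_two {a b r : ℝ} (ha : 0 ≤ a) (hb : 0 ≤ b) (hr : 0 ≤ r) :
    (a + b) ^ r ≤ 2 ^ r * (a ^ r + b ^ r) := by
  have h1 : a + b ≤ 2 * max a b := by
    have := le_max_left a b
    have := le_max_right a b
    linarith
  have hm : 0 ≤ max a b := le_max_of_le_left ha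
  calc (a + b) ^ r ≤ (2 * max a b) ^ r := by gcongr
    _ = 2 ^ r * max a b ^ r := Real.mul_rpow (by norm_num) hm
    _ ≤ 2 ^ r * (a ^ r + b ^ r) := by
      gcongr
      rcases max_choice a b with h | h <;> rw [h]
      · exact le_add_of_nonneg_right (by positivity)
      · exact le_add_of_nonneg_left (by positivity)

lemma abs_add_rpow_le (a b : ℝ) {r : ℝ} (hr : 0 ≤ r) :
    |a + b| ^ r ≤ 2 ^ r * (|a| ^ r + |b| ^ r) := by
  refine le_trans ?_ (add_rpow_le_two (abs_nonneg a) (abs_nonneg b) hr)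
  gcongr
  exact abs_add_le a b

lemma rpow_le_mul_sq {a M q : ℝ} (ha : 0 ≤ a) (haM : a ≤ M) (hq : 2 ≤ q) :
    a ^ q ≤ M ^ (q - 2) * a ^ 2 := by
  have : a ^ q = a ^ (q - 2) * a ^ 2 := by
    rw [← Real.rpow_two, ← Real.rpow_add_of_nonneg ha (by linarith) (by norm_num)]
    ring_nf
  rw [this]
  gcongr

lemma rpow_interp {a M q s : ℝ} (ha : 0 ≤ a) (hM : 0 < M) (hq : 2 ≤ q) (hs : q ≤ s) :
    a ^ q ≤ M ^ (q - s) * a ^ s + M ^ (q - 2) * a ^ 2 := by
  rcases le_total a M with h | h
  · exact (rpow_le_mul_sq ha h hq).trans (le_add_of_nonneg_left (by positivity))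
  · have ha' : 0 < a := hM.trans_le h
    refine le_trans ?_ (le_add_of_nonneg_right (by positivity))
    have : a ^ q = a ^ (q - s) * a ^ s := by
      rw [← Real.rpow_add ha']
      ring_nf
    rw [this]
    gcongr ?_ * _
    exact Real.rpow_le_rpow_of_nonpos hM h (by linarith)

lemma brezis_lieb_pointwise {r ε : ℝ} (hr : 0 < r) (hε : 0 < ε) :
    ∃ C, 0 ≤ C ∧ ∀ a b : ℝ, |(|a + b| ^ r - |a| ^ r)| ≤ ε * |a| ^ r + C * |b| ^ r := by
  have hc : ContinuousAt (fun t : ℝ => |1 + t| ^ r) 0 := by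
    apply ContinuousAt.rpow_const (by fun_prop) (Or.inr hr.le)
  obtain ⟨δ, hδ, hδ'⟩ := Metric.continuousAt_iff.1 hc ε hε
  refine ⟨(1 / δ + 1) ^ r, by positivity, fun a b => ?_⟩
  by_cases h : |b| < δ * |a|
  · have ha : a ≠ 0 := by
      rintro rfl
      simp at h
      exact absurd h (not_lt.2 (abs_nonneg b))
    have ha' : 0 < |a| := abs_pos.2 ha
    have h1 : dist (b / a) 0 < δ := by
      rw [Real.dist_eq, sub_zero, abs_div, div_lt_iff₀ ha']
      exact h
    have h2 := hδ' h1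
    simp only [add_zero, abs_one, Real.one_rpow, Real.dist_eq] at h2
    have h3 : |a + b| ^ r = |a| ^ r * |1 + b / a| ^ r := by
      rw [← Real.mul_rpow (abs_nonneg _) (abs_nonneg _), ← abs_mul]
      congr 2
      field_simp
    rw [h3, ← mul_sub_one, abs_mul, abs_of_nonneg (by positivity : 0 ≤ |a| ^ r), mul_comm]
    refine le_trans ?_ (le_add_of_nonneg_right (by positivity))
    gcongr
  · rw [not_lt] at h
    have h1 : |a| ≤ 1 / δ * |b| := by
      rw [one_div, ← div_eq_inv_mul, le_div_iff₀ hδ]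
      linarith
    have hb := abs_nonneg b
    have h2 : |a + b| ^ r ≤ (1 / δ + 1) ^ r * |b| ^ r := by
      rw [← Real.mul_rpow (by positivity) hb]
      gcongr
      have := abs_add_le a b
      linarith
    have h3 : |a| ^ r ≤ (1 / δ + 1) ^ r * |b| ^ r := by
      rw [← Real.mul_rpow (by positivity) hb]
      gcongr
      linarith
    have h4 : 0 ≤ |a + b| ^ r := by positivity
    have h5 : 0 ≤ |a| ^ r := by positivity
    have h6 : 0 ≤ ε * |a| ^ r := by positivity
    rw [abs_le]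
    constructor <;> linarith

section Measure

variable {X : Type*} [MeasurableSpace X] {μ : Measure X}

lemma iadd {F : Type*} [NormedAddCommGroup F] {f g : X → F} (hf : Integrable f μ)
    (hg : Integrable g μ) : Integrable (fun x => f x + g x) μ := hf.add hg

lemma isub {F : Type*} [NormedAddCommGroup F] {f g : X → F} (hf : Integrable f μ)
    (hg : Integrable g μ) : Integrable (fun x => f x - g x) μ := hf.sub hg

lemma aesm_abs_rpow {f : X → ℝ} (hf : AEStronglyMeasurable f μ) (r : ℝ) :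
    AEStronglyMeasurable (fun x => |f x| ^ r) μ :=
  (hf.norm.aemeasurable.pow_const r).aestronglyMeasurable

lemma integrable_abs_add_rpow {f g : X → ℝ} {r : ℝ} (hr : 0 ≤ r) (hf : AEStronglyMeasurable f μ)
    (hg : AEStronglyMeasurable g μ) (hfi : Integrable (fun x => |f x| ^ r) μ)
    (hgi : Integrable (fun x => |g x| ^ r) μ) : Integrable (fun x => |f x + g x| ^ r) μ := by
  refine ((hfi.add hgi).const_mul (2 ^ r)).mono' (aesm_abs_rpow (hf.add hg) r)
    (Eventually.of_forall fun x => ?_)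
  rw [Real.norm_of_nonneg (by positivity)]
  exact abs_add_rpow_le _ _ hr

/-- The Brezis–Lieb lemma. -/
lemma brezis_lieb {f : ℕ → X → ℝ} {g : X → ℝ} {r C : ℝ} (hr : 0 < r)
    (hf : ∀ n, AEStronglyMeasurable (f n) μ) (hg : AEStronglyMeasurable g μ)
    (hfi : ∀ n, Integrable (fun x => |f n x| ^ r) μ) (hgi : Integrable (fun x => |g x| ^ r) μ)
    (hC : ∀ n, ∫ x, |f n x - g x| ^ r ∂μ ≤ C)
    (hlim : ∀ᵐ x ∂μ, Tendsto (fun n => f n x) atTop (𝓝 (g x))) :
    Tendsto (fun n => ∫ x, |f n x| ^ r ∂μ - ∫ x, |f n x - g x| ^ r ∂μ) atTop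
      (𝓝 (∫ x, |g x| ^ r ∂μ)) := by
  have hdi : ∀ n, Integrable (fun x => |f n x - g x| ^ r) μ := by
    intro n
    have := integrable_abs_add_rpow (g := fun x => -g x) hr.le (hf n) hg.neg (hfi n)
      (by simpa using hgi)
    simpa [sub_eq_add_neg] using this
  have hC0 : 0 ≤ C := le_trans (integral_nonneg fun x => by positivity) (hC 0)
  rw [Metric.tendsto_atTop]
  intro η hη
  set ε := η / (2 * (C + 1)) with hεdef
  have hε : 0 < ε := by positivity
  obtain ⟨K, hK0, hK⟩ := brezis_lieb_pointwise hr hε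
  let h : ℕ → X → ℝ := fun n x => |f n x| ^ r - |f n x - g x| ^ r - |g x| ^ r
  let W : ℕ → X → ℝ := fun n x => max (|h n x| - ε * |f n x - g x| ^ r) 0
  have hhi : ∀ n, Integrable (h n) μ := fun n => ((hfi n).sub (hdi n)).sub hgi
  have hWi : ∀ n, Integrable (W n) μ := fun n =>
    ((hhi n).abs.sub ((hdi n).const_mul ε)).sup (integrable_zero _ _ _)
  have hW : Tendsto (fun n => ∫ x, W n x ∂μ) atTop (𝓝 (∫ _x, (0 : ℝ) ∂μ)) := by
    apply tendsto_integral_of_dominated_convergence (fun x => (K + 1) * |g x| ^ r)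
      (fun n => (hWi n).1) (hgi.const_mul _)
    · intro n
      refine Eventually.of_forall fun x => ?_
      rw [Real.norm_of_nonneg (le_max_right _ _)]
      apply max_le _ (by positivity)
      have e1 := hK (f n x - g x) (g x)
      rw [sub_add_cancel] at e1
      have e2 : |h n x| ≤ |(|f n x| ^ r - |f n x - g x| ^ r)| + |g x| ^ r := by
        refine (abs_sub _ _).trans (le_of_eq ?_)
        rw [abs_of_nonneg (by positivity : 0 ≤ |g x| ^ r)]
      linarith
    · filter_upwards [hlim] with x hx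
      have t1 : Tendsto (fun n => |f n x| ^ r) atTop (𝓝 (|g x| ^ r)) :=
        hx.abs.rpow_const (Or.inr hr.le)
      have t2 : Tendsto (fun n => |f n x - g x| ^ r) atTop (𝓝 0) := by
        have := ((hx.sub_const (g x)).abs).rpow_const (p := r) (Or.inr hr.le)
        simpa [Real.zero_rpow hr.ne'] using this
      have t3 := ((((t1.sub t2).sub_const (|g x| ^ r)).abs).sub (t2.const_mul ε)).max
        (tendsto_const_nhds (x := (0 : ℝ)))
      simpa using t3
  rw [integral_zero] at hW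
  obtain ⟨n0, hn0⟩ := (Metric.tendsto_atTop.1 hW) (η / 2) (by positivity)
  refine ⟨n0, fun n hn => ?_⟩
  have e1 := hn0 n hn
  rw [Real.dist_eq, sub_zero] at e1
  have e2 : ∫ x, |f n x| ^ r ∂μ - ∫ x, |f n x - g x| ^ r ∂μ - ∫ x, |g x| ^ r ∂μ =
      ∫ x, h n x ∂μ := by
    rw [← integral_sub (hfi n) (hdi n), ← integral_sub (isub (hfi n) (hdi n)) hgi]
  rw [Real.dist_eq, e2]
  have e3 : |∫ x, h n x ∂μ| ≤ ∫ x, (W n x + ε * |f n x - g x| ^ r) ∂μ := by
    refine abs_integral_le_integral_abs.trans ?_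
    apply integral_mono (hhi n).abs (iadd (hWi n) ((hdi n).const_mul ε))
    intro x
    have := le_max_left (|h n x| - ε * |f n x - g x| ^ r) 0
    simp only [W]
    linarith
  rw [integral_add (hWi n) ((hdi n).const_mul ε), integral_const_mul] at e3
  have e4 : ε * ∫ x, |f n x - g x| ^ r ∂μ ≤ η / 2 := by
    calc ε * ∫ x, |f n x - g x| ^ r ∂μ ≤ ε * (C + 1) := by
          gcongr
          linarith [hC n]
      _ = η / 2 := by rw [hεdef]; field_simp
  linarith [le_abs_self (∫ x, W n x ∂μ)]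

/-- Gateaux differentiability of `∫ |u|^r`. -/
lemma hasDerivAt_integral_abs_rpow {u φ : X → ℝ} {r : ℝ} (hr : 2 ≤ r)
    (hu : AEStronglyMeasurable u μ) (hφ : AEStronglyMeasurable φ μ)
    (hui : Integrable (fun x => |u x| ^ r) μ) (hφi : Integrable (fun x => |φ x| ^ r) μ) :
    HasDerivAt (fun t : ℝ => ∫ x, |u x + t * φ x| ^ r ∂μ)
      (r * ∫ x, |u x| ^ (r - 2) * u x * φ x ∂μ) 0 := by
  have key := hasDerivAt_integral_of_dominated_loc_of_deriv_le (μ := μ) (𝕜 := ℝ) (x₀ := 0)
    (F := fun t x => |u x + t * φ x| ^ r)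
    (F' := fun t x => r * |u x + t * φ x| ^ (r - 2) * (u x + t * φ x) * φ x)
    (bound := fun x => r * (2 ^ r * (|u x| ^ r + |φ x| ^ r))) (s := Metric.ball 0 1)
    (Metric.ball_mem_nhds _ one_pos)
    (Eventually.of_forall fun t => aesm_abs_rpow (hu.add (hφ.const_mul t)) r)
    (by simpa using hui)
    ((((aesm_abs_rpow (hu.add (hφ.const_mul 0)) (r - 2)).const_mul r).mul
      (hu.add (hφ.const_mul 0))).mul hφ)
    (Eventually.of_forall fun x t ht => ?_) (((hui.add hφi).const_mul _).const_mul _)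
    (Eventually.of_forall fun x t _ => ?_)
  · have e : r * ∫ x, |u x| ^ (r - 2) * u x * φ x ∂μ =
        ∫ x, r * |u x + 0 * φ x| ^ (r - 2) * (u x + 0 * φ x) * φ x ∂μ := by
      rw [← integral_const_mul]
      congr 1
      ext x
      simp
      ring
    rw [e]
    exact key.2
  · rw [mem_ball_zero_iff, Real.norm_eq_abs] at ht
    have hm : |u x + t * φ x| ≤ |u x| + |φ x| := by
      refine (abs_add_le _ _).trans ?_
      rw [abs_mul]
      gcongr
      exact mul_le_of_le_one_left (abs_nonneg _) ht.le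
    have hm0 : 0 ≤ |u x| + |φ x| := by positivity
    rw [Real.norm_eq_abs, abs_mul, abs_mul, abs_mul, abs_of_nonneg (by linarith : 0 ≤ r),
      abs_of_nonneg (by positivity : 0 ≤ |u x + t * φ x| ^ (r - 2)), mul_assoc, mul_assoc]
    have hr0 : 0 ≤ r := by linarith
    apply mul_le_mul_of_nonneg_left _ hr0
    refine le_trans ?_ (add_rpow_le_two (abs_nonneg _) (abs_nonneg _) hr0)
    calc |u x + t * φ x| ^ (r - 2) * (|u x + t * φ x| * |φ x|)
        ≤ (|u x| + |φ x|) ^ (r - 2) * ((|u x| + |φ x|) * (|u x| + |φ x|)) := by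
          gcongr
          exact le_add_of_nonneg_left (abs_nonneg _)
      _ = (|u x| + |φ x|) ^ r := by
          rw [← sq, ← Real.rpow_two, ← Real.rpow_add_of_nonneg hm0 (by linarith) (by norm_num)]
          ring_nf
  · have h1 : HasDerivAt (fun t : ℝ => u x + t * φ x) (φ x) t := by
      simpa using ((hasDerivAt_id t).mul_const (φ x)).const_add (u x)
    exact (hasDerivAt_abs_rpow (u x + t * φ x) (by linarith : 1 < r)).comp t h1

end Measure

variable {E : Type*} [NormedAddCommGroup E] [InnerProductSpace ℝ E] [FiniteDimensional ℝ E]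
  [MeasurableSpace E] [BorelSpace E]

/-- A form of Lions' vanishing lemma: an `H¹`-bounded function whose `L^q` norm is bounded below has
a mollification that is bounded below at some point. -/
lemma lions {q s C B δ : ℝ} (hq : 2 < q) (hs : q < s) (hC : 0 ≤ C) (hB : 0 ≤ B) (hδ : 0 < δ) :
    ∃ (ρ : ContDiffBump (0 : E)) (κ : ℝ), 0 < κ ∧ ∀ (f : E → ℝ) (g : E → E),
      MemLp f 2 volume → MemLp g 2 volume → IsWeakGrad f g → ∫ x, ‖f x‖ ^ 2 ≤ C →
      ∫ x, ‖g x‖ ^ 2 ≤ C → eLpNorm f (ENNReal.ofReal s) volume ≤ ENNReal.ofReal B →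
      δ ≤ ∫ x, |f x| ^ q → ∃ y, κ ≤ |mol ρ f y| := by
  set η := δ / (4 * 2 ^ q) with hη
  have hη0 : 0 < η := by positivity
  obtain ⟨M, hM1, hM⟩ : ∃ M : ℝ, M ^ (q - s) * (B + B) ^ s < η ∧ 0 < M := by
    have h1 := (tendsto_rpow_neg_atTop (by linarith : 0 < s - q)).mul_const ((B + B) ^ s)
    rw [zero_mul, neg_sub] at h1
    exact ((h1.eventually_lt_const hη0).and (eventually_gt_atTop 0)).exists
  obtain ⟨k, hk⟩ : ∃ k : ℕ, M ^ (q - 2) * (1 / ((k : ℝ) + 1) * √C) ^ 2 < η := by
    have h1 := ((tendsto_one_div_add_atTop_nhds_zero_nat.mul_const (√C)).pow 2).const_mul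
      (M ^ (q - 2))
    rw [zero_mul, zero_pow two_ne_zero, mul_zero] at h1
    exact (h1.eventually_lt_const hη0).exists
  obtain ⟨κ, hκ1, hκ⟩ : ∃ κ : ℝ, κ ^ (q - 2) * C < η ∧ 0 < κ := by
    have h1 : Tendsto (fun κ : ℝ => κ ^ (q - 2) * C) (𝓝[>] 0) (𝓝 0) := by
      have := ((Real.continuousAt_rpow_const 0 (q - 2) (Or.inr (by linarith))).tendsto).mul_const C
      rw [Real.zero_rpow (by linarith), zero_mul] at this
      exact this.mono_left nhdsWithin_le_nhds
    exact ((h1.eventually_lt_const hη0).and self_mem_nhdsWithin).exists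
  refine ⟨bumpSeq E k, κ, hκ, fun f g hf hg hw hCf hCg hfs hδf => ?_⟩
  set ρ := bumpSeq E k
  by_contra hcon
  push Not at hcon
  have hmc := (contDiff_one_mol ρ hf).continuous
  have hs1 : (1 : ℝ≥0∞) ≤ ENNReal.ofReal s := by
    rw [← ENNReal.ofReal_one]
    exact ENNReal.ofReal_le_ofReal (by linarith)
  have hdm : AEStronglyMeasurable (fun x => f x - mol ρ f x) volume :=
    hf.1.sub hmc.aestronglyMeasurable
  have d1 := integral_rpow_le_of_eLpNorm_le (r := s) (c := B + B) hdm (by linarith) (by positivity)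
    (by
      refine (eLpNorm_sub_le hf.1 hmc.aestronglyMeasurable hs1).trans ?_
      rw [ENNReal.ofReal_add hB hB]
      exact add_le_add hfs ((eLpNorm_mol_le ρ hf.1 hs1 ENNReal.ofReal_ne_top).trans hfs))
  have d2 := integral_sq_le_of_eLpNorm_le (c := 1 / ((k : ℝ) + 1) * √C) hdm (by positivity)
    (by
      refine (eLpNorm_sub_mol ρ hf hg hw).trans ?_
      rw [ENNReal.ofReal_mul (by positivity)]
      gcongr
      · exact le_rfl
      · exact eLpNorm_two_le hg hCg)
  have d3 := integral_sq_le_of_eLpNorm_le (c := √C) (f := mol ρ f) hmc.aestronglyMeasurable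
    (by positivity) ((eLpNorm_mol_le ρ hf.1 one_le_two ENNReal.ofNat_ne_top).trans
      (eLpNorm_two_le hf hCf))
  rw [Real.sq_sqrt hC] at d3
  have i2 := (memLp_two_iff_integrable_sq_norm hdm).1 d2.1
  have i3 := (memLp_two_iff_integrable_sq_norm hmc.aestronglyMeasurable).1 d3.1
  have hle : ∫ x, |f x| ^ q ≤ ∫ x, 2 ^ q * (M ^ (q - s) * ‖f x - mol ρ f x‖ ^ s +
      M ^ (q - 2) * ‖f x - mol ρ f x‖ ^ 2 + κ ^ (q - 2) * ‖mol ρ f x‖ ^ 2) := by
    apply integral_mono_of_nonneg (Eventually.of_forall fun x => by positivity)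
      ((iadd (iadd (d1.1.const_mul _) (i2.const_mul _)) (i3.const_mul _)).const_mul _)
    refine Eventually.of_forall fun x => ?_
    have e1 := abs_add_rpow_le (f x - mol ρ f x) (mol ρ f x) (by linarith : 0 ≤ q)
    rw [sub_add_cancel] at e1
    refine e1.trans ?_
    simp only [Real.norm_eq_abs]
    gcongr
    · exact rpow_interp (abs_nonneg _) hM hq.le hs.le
    · exact rpow_le_mul_sq (abs_nonneg _) (hcon x).le hq.le
  rw [integral_const_mul, integral_add (iadd (d1.1.const_mul _) (i2.const_mul _)) (i3.const_mul _),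
    integral_add (d1.1.const_mul _) (i2.const_mul _), integral_const_mul, integral_const_mul,
    integral_const_mul] at hle
  have e1 : M ^ (q - s) * ∫ x, ‖f x - mol ρ f x‖ ^ s ≤ η := by
    refine le_trans ?_ hM1.le
    gcongr
    exact d1.2
  have e2 : M ^ (q - 2) * ∫ x, ‖f x - mol ρ f x‖ ^ 2 ≤ η := by
    refine le_trans ?_ hk.le
    gcongr
    exact d2.2
  have e3 : κ ^ (q - 2) * ∫ x, ‖mol ρ f x‖ ^ 2 ≤ η := by
    refine le_trans ?_ hκ1.le
    gcongr
    exact d3.2
  have e4 : δ ≤ 2 ^ q * (η + η + η) := by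
    refine hδf.trans (hle.trans ?_)
    gcongr
  have e5 : 2 ^ q * (η + η + η) = 3 / 4 * δ := by
    rw [hη]
    field_simp
    ring
  linarith

end Pool.Agent.P.MP_593b7e_an
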