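import Pool.Agent.P.MP_593b7e_an.Defs
import Pool.Agent.P.MP_593b7e_an.LpTools

set_option autoImplicit false
set_option linter.unusedSectionVars false

open MeasureTheory Filter Topology Set Module
open scoped ContDiff ENNReal NNReal

namespace Pool.Agent.P.MP_593b7e_an

section Generic

variable {E : Type*} [NormedAddCommGroup E] [InnerProductSpace ℝ E] [FiniteDimensional ℝ E]
  [MeasurableSpace E] [BorelSpace E]

lemma memLp_test {φ : E → ℝ} (h1 : ContDiff ℝ ∞ φ) (h2 : HasCompactSupport φ) :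
    MemLp φ 2 volume := h1.continuous.memLp_of_hasCompactSupport h2

lemma one_le_smooth : (1 : WithTop ℕ∞) ≤ ((⊤ : ℕ∞) : WithTop ℕ∞) := by exact_mod_cast le_top

lemma memLp_test_grad {φ : E → ℝ} (h1 : ContDiff ℝ ∞ φ) (h2 : HasCompactSupport φ) :
    MemLp (gradient φ) 2 volume :=
  (continuous_gradient (h1.of_le one_le_smooth)).memLp_of_hasCompactSupport
    (hasCompactSupport_gradient h2)

lemma integrable_smul_two {f : E → ℝ} {g : E → E} (hf : MemLp f 2 volume)
    (hg : MemLp g 2 volume) : Integrable (fun x => f x • g x) volume :=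
  memLp_one_iff_integrable.1 (hg.smul hf)

lemma gradient_comp_sub {φ : E → ℝ} (h1 : ContDiff ℝ ∞ φ) (y x : E) :
    gradient (fun x => φ (x - y)) x = gradient φ (x - y) := by
  apply ext_inner_right ℝ
  intro e
  rw [inner_gradient, inner_gradient]
  have : HasFDerivAt (fun x => φ (x - y))
      ((fderiv ℝ φ (x - y)).comp (ContinuousLinearMap.id ℝ E)) x :=
    (((h1.of_le one_le_smooth).differentiable one_ne_zero (x - y)).hasFDerivAt).comp x
      ((hasFDerivAt_id x).sub_const y)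
  rw [this.fderiv]
  simp

lemma gradient_comp_smul {φ : E → ℝ} (h1 : ContDiff ℝ ∞ φ) (c : ℝ) (x : E) :
    gradient (fun x => φ (c • x)) x = c • gradient φ (c • x) := by
  apply ext_inner_right ℝ
  intro e
  rw [inner_gradient, real_inner_smul_left, inner_gradient]
  have : HasFDerivAt (fun x => φ (c • x))
      ((fderiv ℝ φ (c • x)).comp (c • ContinuousLinearMap.id ℝ E)) x :=
    (((h1.of_le one_le_smooth).differentiable one_ne_zero (c • x)).hasFDerivAt).comp x
      ((hasFDerivAt_id x).const_smul c)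
  rw [this.fderiv]
  simp

lemma memLp_comp_smul {F : Type*} [NormedAddCommGroup F] {f : E → F} (hf : MemLp f 2 volume)
    {c : ℝ} (hc : c ≠ 0) : MemLp (fun x => f (c • x)) 2 volume := by
  have h1 : MemLp f 2 (Measure.map (fun x : E => c • x) volume) := by
    rw [Measure.map_addHaar_smul volume hc]
    exact hf.smul_measure ENNReal.ofReal_ne_top
  exact h1.comp_of_map (measurable_const_smul c).aemeasurable

lemma isWeakGrad_smooth {f : E → ℝ} (h1 : ContDiff ℝ ∞ f) (h2 : HasCompactSupport f) :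
    IsWeakGrad f (gradient f) := by
  intro φ hφ1 hφ2
  have i1 := integrable_smul_two (memLp_test h1 h2) (memLp_test_grad hφ1 hφ2)
  have i2 := integrable_smul_two (memLp_test hφ1 hφ2) (memLp_test_grad h1 h2)
  apply ext_inner_left ℝ
  intro e
  rw [inner_neg_right, ← integral_inner i1, ← integral_inner i2]
  have e1 : ∀ x, inner ℝ e (f x • gradient φ x) = f x * fderiv ℝ φ x e := by
    intro x
    rw [real_inner_smul_right, real_inner_comm, inner_gradient]
  have e2 : ∀ x, inner ℝ e (φ x • gradient f x) = fderiv ℝ f x e * φ x := by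
    intro x
    rw [real_inner_smul_right, real_inner_comm, inner_gradient, mul_comm]
  have j1 := i1.const_inner (𝕜 := ℝ) e
  have j2 := i2.const_inner (𝕜 := ℝ) e
  simp_rw [e1] at j1 ⊢
  simp_rw [e2] at j2 ⊢
  apply integral_mul_fderiv_eq_neg_fderiv_mul_of_integrable j2 j1
  · exact (memLp_test h1 h2).integrable_mul (memLp_test hφ1 hφ2)
  · exact fun x _ => (h1.of_le one_le_smooth).differentiable one_ne_zero x
  · exact fun x _ => (hφ1.of_le one_le_smooth).differentiable one_ne_zero x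

end Generic

variable {N : ℕ}

namespace H1

lemma isWeakGrad (u : H1 N) : IsWeakGrad u.fn u.grad := u.weak

/-- Sum of two `H¹` functions. -/
noncomputable def add (u v : H1 N) : H1 N where
  fn := fun x => u.fn x + v.fn x
  grad := fun x => u.grad x + v.grad x
  fn_memLp := u.fn_memLp.add v.fn_memLp
  grad_memLp := u.grad_memLp.add v.grad_memLp
  weak := fun φ h1 h2 => by
    simp_rw [add_smul, smul_add]
    rw [integral_add (integrable_smul_two u.fn_memLp (memLp_test_grad h1 h2))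
      (integrable_smul_two v.fn_memLp (memLp_test_grad h1 h2)),
      integral_add (integrable_smul_two (memLp_test h1 h2) u.grad_memLp)
      (integrable_smul_two (memLp_test h1 h2) v.grad_memLp), u.weak φ h1 h2, v.weak φ h1 h2,
      neg_add]

/-- Scalar multiple of an `H¹` function. -/
noncomputable def smul (a : ℝ) (u : H1 N) : H1 N where
  fn := fun x => a * u.fn x
  grad := fun x => a • u.grad x
  fn_memLp := u.fn_memLp.const_mul a
  grad_memLp := u.grad_memLp.const_smul a
  weak := fun φ h1 h2 => by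
    simp_rw [mul_smul, smul_comm (φ _) a]
    rw [integral_smul, integral_smul, u.weak φ h1 h2, smul_neg]

/-- Translate of an `H¹` function. -/
noncomputable def tr (y : EuclideanSpace ℝ (Fin N)) (u : H1 N) : H1 N where
  fn := fun x => u.fn (x + y)
  grad := fun x => u.grad (x + y)
  fn_memLp := u.fn_memLp.comp_measurePreserving (measurePreserving_add_right volume y)
  grad_memLp := u.grad_memLp.comp_measurePreserving (measurePreserving_add_right volume y)
  weak := fun φ h1 h2 => by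
    have h := u.weak (fun x => φ (x - y)) (h1.comp (contDiff_id.sub contDiff_const))
      (h2.comp_homeomorph (Homeomorph.subRight y))
    simp_rw [gradient_comp_sub h1] at h
    rw [← integral_add_right_eq_self _ y,
      ← integral_add_right_eq_self (fun x => φ (x - y) • u.grad x) y] at h
    simpa using h

/-- Dilate of an `H¹` function. -/
noncomputable def dil (R : ℝ) (hR : 0 < R) (u : H1 N) : H1 N where
  fn := fun x => u.fn (R • x)
  grad := fun x => R • u.grad (R • x)
  fn_memLp := memLp_comp_smul u.fn_memLp hR.ne'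
  grad_memLp := (memLp_comp_smul u.grad_memLp hR.ne').const_smul R
  weak := fun φ h1 h2 => by
    have h := u.weak (fun x => φ (R⁻¹ • x)) (h1.comp (contDiff_const_smul _))
      (h2.comp_homeomorph (Homeomorph.smulOfNeZero R⁻¹ (inv_ne_zero hR.ne')))
    simp_rw [gradient_comp_smul h1] at h
    have e1 := Measure.integral_comp_smul volume
      (fun x => u.fn x • R⁻¹ • gradient φ (R⁻¹ • x)) R
    have e2 := Measure.integral_comp_smul volume (fun x => φ (R⁻¹ • x) • u.grad x) R
    rw [h, smul_neg, ← e2] at e1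
    simp only [inv_smul_smul₀ hR.ne'] at e1
    simp_rw [smul_comm (φ _) R, integral_smul, ← smul_neg, ← e1, ← integral_smul,
      smul_comm R (u.fn _), smul_inv_smul₀ hR.ne']

/-- A smooth compactly supported function as an element of `H¹`. -/
noncomputable def ofSmooth (f : EuclideanSpace ℝ (Fin N) → ℝ) (h1 : ContDiff ℝ ∞ f)
    (h2 : HasCompactSupport f) : H1 N where
  fn := f
  grad := gradient f
  fn_memLp := memLp_test h1 h2
  grad_memLp := memLp_test_grad h1 h2
  weak := isWeakGrad_smooth h1 h2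

/-- Difference of two `H¹` functions. -/
noncomputable def sub (u v : H1 N) : H1 N := u.add (v.smul (-1))

lemma sub_fn (u v : H1 N) (x : EuclideanSpace ℝ (Fin N)) : (u.sub v).fn x = u.fn x - v.fn x := by
  simp [sub, add, smul, sub_eq_add_neg]

end H1

/-- Dirichlet form. -/
noncomputable def Dd (u φ : H1 N) : ℝ := ∫ x, inner ℝ (u.grad x) (φ.grad x)

/-- `L²` product. -/
noncomputable def Ll (u φ : H1 N) : ℝ := ∫ x, u.fn x * φ.fn x

/-- `∫ |u|^r`. -/
noncomputable def Pp (r : ℝ) (u : H1 N) : ℝ := ∫ x, |u.fn x| ^ r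

/-- `∫ |u|^(r-2) u φ`. -/
noncomputable def Nn (r : ℝ) (u φ : H1 N) : ℝ := ∫ x, |u.fn x| ^ (r - 2) * u.fn x * φ.fn x

lemma int_D (u φ : H1 N) : Integrable (fun x => inner ℝ (u.grad x) (φ.grad x)) volume :=
  integrable_inner_of_memLp u.grad_memLp φ.grad_memLp

lemma int_L (u φ : H1 N) : Integrable (fun x => u.fn x * φ.fn x) volume :=
  u.fn_memLp.integrable_mul φ.fn_memLp

lemma Dd_comm (u φ : H1 N) : Dd u φ = Dd φ u := by
  unfold Dd
  simp_rw [real_inner_comm]

lemma Ll_comm (u φ : H1 N) : Ll u φ = Ll φ u := by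
  unfold Ll
  simp_rw [mul_comm]

lemma Dd_add_left (u v φ : H1 N) : Dd (u.add v) φ = Dd u φ + Dd v φ := by
  unfold Dd
  rw [← integral_add (int_D u φ) (int_D v φ)]
  simp [H1.add, inner_add_left]

lemma Ll_add_left (u v φ : H1 N) : Ll (u.add v) φ = Ll u φ + Ll v φ := by
  unfold Ll
  rw [← integral_add (int_L u φ) (int_L v φ)]
  simp [H1.add, add_mul]

lemma Dd_smul_left (a : ℝ) (u φ : H1 N) : Dd (u.smul a) φ = a * Dd u φ := by
  unfold Dd
  rw [← integral_const_mul]
  simp [H1.smul, real_inner_smul_left]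

lemma Ll_smul_left (a : ℝ) (u φ : H1 N) : Ll (u.smul a) φ = a * Ll u φ := by
  unfold Ll
  rw [← integral_const_mul]
  simp [H1.smul, mul_assoc]

lemma Dd_add_right (u v φ : H1 N) : Dd φ (u.add v) = Dd φ u + Dd φ v := by
  rw [Dd_comm, Dd_add_left, Dd_comm u, Dd_comm v]

lemma Ll_add_right (u v φ : H1 N) : Ll φ (u.add v) = Ll φ u + Ll φ v := by
  rw [Ll_comm, Ll_add_left, Ll_comm u, Ll_comm v]

lemma Dd_smul_right (a : ℝ) (u φ : H1 N) : Dd φ (u.smul a) = a * Dd φ u := by
  rw [Dd_comm, Dd_smul_left, Dd_comm u]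

lemma Ll_smul_right (a : ℝ) (u φ : H1 N) : Ll φ (u.smul a) = a * Ll φ u := by
  rw [Ll_comm, Ll_smul_left, Ll_comm u]

lemma Pp_smul (r a : ℝ) (u : H1 N) : Pp r (u.smul a) = |a| ^ r * Pp r u := by
  unfold Pp
  rw [← integral_const_mul]
  congr 1
  ext x
  simp only [H1.smul, abs_mul]
  exact Real.mul_rpow (abs_nonneg _) (abs_nonneg _)

lemma Dd_self (u : H1 N) : Dd u u = ∫ x, ‖u.grad x‖ ^ 2 := by
  unfold Dd
  simp_rw [real_inner_self_eq_norm_sq]

lemma Ll_self (u : H1 N) : Ll u u = ∫ x, ‖u.fn x‖ ^ 2 := by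
  unfold Ll
  simp_rw [Real.norm_eq_abs, sq_abs, sq]

lemma Dd_nonneg (u : H1 N) : 0 ≤ Dd u u := by
  rw [Dd_self]
  exact integral_nonneg fun x => by positivity

lemma Ll_nonneg (u : H1 N) : 0 ≤ Ll u u := by
  rw [Ll_self]
  exact integral_nonneg fun x => by positivity

lemma Pp_nonneg (r : ℝ) (u : H1 N) : 0 ≤ Pp r u :=
  integral_nonneg fun x => by positivity

lemma Nn_self {r : ℝ} (hr : 2 ≤ r) (u : H1 N) : Nn r u u = Pp r u := by
  unfold Nn Pp
  congr 1
  ext x
  rw [mul_assoc, ← sq, ← sq_abs, ← Real.rpow_two,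
    ← Real.rpow_add_of_nonneg (abs_nonneg _) (by linarith) (by norm_num)]
  ring_nf

lemma Dd_tr (y : EuclideanSpace ℝ (Fin N)) (u φ : H1 N) : Dd (u.tr y) (φ.tr y) = Dd u φ :=
  integral_add_right_eq_self (fun x => inner ℝ (u.grad x) (φ.grad x)) y

lemma Ll_tr (y : EuclideanSpace ℝ (Fin N)) (u φ : H1 N) : Ll (u.tr y) (φ.tr y) = Ll u φ :=
  integral_add_right_eq_self (fun x => u.fn x * φ.fn x) y

lemma Pp_tr (r : ℝ) (y : EuclideanSpace ℝ (Fin N)) (u : H1 N) : Pp r (u.tr y) = Pp r u :=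
  integral_add_right_eq_self (fun x => |u.fn x| ^ r) y

lemma integral_dil (f : EuclideanSpace ℝ (Fin N) → ℝ) {R : ℝ} (hR : 0 < R) :
    ∫ x, f (R • x) = (R ^ N)⁻¹ * ∫ x, f x := by
  rw [Measure.integral_comp_smul, finrank_euclideanSpace_fin, abs_of_pos (by positivity),
    smul_eq_mul]

lemma Dd_dil {R : ℝ} (hR : 0 < R) (u : H1 N) :
    Dd (u.dil R hR) (u.dil R hR) = R ^ 2 * (R ^ N)⁻¹ * Dd u u := by
  unfold Dd
  rw [mul_assoc, ← integral_dil (fun x => inner ℝ (u.grad x) (u.grad x)) hR, ← integral_const_mul]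
  congr 1
  ext x
  simp only [H1.dil, real_inner_smul_left, real_inner_smul_right]
  ring

lemma Ll_dil {R : ℝ} (hR : 0 < R) (u : H1 N) :
    Ll (u.dil R hR) (u.dil R hR) = (R ^ N)⁻¹ * Ll u u :=
  integral_dil (fun x => u.fn x * u.fn x) hR

lemma Pp_dil (r : ℝ) {R : ℝ} (hR : 0 < R) (u : H1 N) :
    Pp r (u.dil R hR) = (R ^ N)⁻¹ * Pp r u :=
  integral_dil (fun x => |u.fn x| ^ r) hR

lemma Ll_sq_le (u v : H1 N) (a b : ℝ) : 2 * a * b * Ll u v ≤ a ^ 2 * Ll u u + b ^ 2 * Ll v v := by
  have := Ll_nonneg ((u.smul a).add (v.smul (-b)))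
  rw [Ll_add_left, Ll_add_right, Ll_add_right] at this
  simp only [Ll_smul_left, Ll_smul_right] at this
  rw [Ll_comm v u] at this
  nlinarith

lemma crit_gt_two (hN : 3 ≤ N) : 2 < crit N := by
  have : (3 : ℝ) ≤ N := by exact_mod_cast hN
  unfold crit
  rw [lt_div_iff₀ (by linarith)]
  linarith

lemma half_sub_inv_crit (hN : 3 ≤ N) : 1 / 2 - 1 / crit N = 1 / N := by
  have : (3 : ℝ) ≤ N := by exact_mod_cast hN
  unfold crit
  have h1 : (N : ℝ) ≠ 0 := by linarith
  field_simp
  ring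

lemma sobolev_H1 (hN : 3 ≤ N) : ∃ K : ℝ, 0 < K ∧ ∀ u : H1 N,
    eLpNorm u.fn (ENNReal.ofReal (crit N)) volume ≤ ENNReal.ofReal (K * √(Dd u u)) := by
  have h2 := crit_gt_two hN
  let q : ℝ≥0 := (crit N).toNNReal
  have hq : (q : ℝ) = crit N := Real.coe_toNNReal _ (by linarith)
  set K := SNormLESNormFDerivOfEqConst ℝ (volume : Measure (EuclideanSpace ℝ (Fin N))) (2 : ℝ≥0)
  refine ⟨K + 1, by positivity, fun u => ?_⟩
  have h := sobolev_weak (q := q) (by rw [finrank_euclideanSpace_fin]; omega) (by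
    rw [hq, finrank_euclideanSpace_fin]
    have := half_sub_inv_crit hN
    push_cast
    simp only [one_div] at this
    linarith) u.fn_memLp u.grad_memLp u.isWeakGrad
  refine h.trans ?_
  rw [eLpNorm_two_eq u.grad_memLp, Dd_self, ENNReal.ofReal_mul (by positivity)]
  gcongr
  rw [← ENNReal.ofReal_coe_nnreal]
  exact ENNReal.ofReal_le_ofReal (by linarith)

lemma sobolev_Pp (hN : 3 ≤ N) : ∃ K : ℝ, 0 < K ∧ ∀ u : H1 N,
    Integrable (fun x => |u.fn x| ^ crit N) volume ∧
      Pp (crit N) u ≤ K * Dd u u ^ (crit N / 2) := by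
  obtain ⟨K, hK, h⟩ := sobolev_H1 hN
  have h2 := crit_gt_two hN
  refine ⟨K ^ crit N, by positivity, fun u => ?_⟩
  have := integral_rpow_le_of_eLpNorm_le u.fn_memLp.1 (by linarith) (by positivity) (h u)
  refine ⟨this.1, this.2.trans (le_of_eq ?_)⟩
  rw [Real.mul_rpow hK.le (Real.sqrt_nonneg _), Real.sqrt_eq_rpow, ← Real.rpow_mul (Dd_nonneg u)]
  congr 2
  ring

lemma int_sq (u : H1 N) : Integrable (fun x => |u.fn x| ^ 2) volume :=
  (memLp_two_iff_integrable_sq_norm u.fn_memLp.1).1 u.fn_memLp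

lemma int_P (hN : 3 ≤ N) {r : ℝ} (h1 : 2 ≤ r) (h2 : r ≤ crit N) (u : H1 N) :
    Integrable (fun x => |u.fn x| ^ r) volume := by
  obtain ⟨K, _, h⟩ := sobolev_Pp hN
  refine (iadd ((h u).1.const_mul (1 ^ (r - crit N))) ((int_sq u).const_mul (1 ^ (r - 2)))).mono'
    (aesm_abs_rpow u.fn_memLp.1 r) (Eventually.of_forall fun x => ?_)
  rw [Real.norm_of_nonneg (by positivity)]
  exact rpow_interp (abs_nonneg _) one_pos h1 h2

lemma Pp_interp (hN : 3 ≤ N) {r M : ℝ} (h1 : 2 ≤ r) (h2 : r ≤ crit N) (hM : 0 < M) (u : H1 N) :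
    Pp r u ≤ M ^ (r - crit N) * Pp (crit N) u + M ^ (r - 2) * Ll u u := by
  have hc := int_P hN (crit_gt_two hN).le le_rfl u
  rw [Ll_self]
  unfold Pp
  simp only [Real.norm_eq_abs]
  rw [← integral_const_mul, ← integral_const_mul,
    ← integral_add (hc.const_mul _) ((int_sq u).const_mul _)]
  exact integral_mono (int_P hN h1 h2 u) (iadd (hc.const_mul _) ((int_sq u).const_mul _))
    fun x => rpow_interp (abs_nonneg _) hM h1 h2

lemma Pp_eq_zero_iff (hN : 3 ≤ N) {r : ℝ} (h1 : 2 ≤ r) (h2 : r ≤ crit N) (u : H1 N) :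
    Pp r u = 0 ↔ u.fn =ᵐ[volume] 0 := by
  unfold Pp
  rw [integral_eq_zero_iff_of_nonneg (fun x => by positivity) (int_P hN h1 h2 u)]
  constructor <;> intro h <;> filter_upwards [h] with x hx
  · simpa [Real.rpow_eq_zero (abs_nonneg _) (by linarith : r ≠ 0)] using hx
  · simp [hx, Real.zero_rpow (by linarith : r ≠ 0)]

lemma Ll_eq_zero_iff (u : H1 N) : Ll u u = 0 ↔ u.fn =ᵐ[volume] 0 := by
  unfold Ll
  rw [integral_eq_zero_iff_of_nonneg (fun x => mul_self_nonneg _) (int_L u u)]
  constructor <;> intro h <;> filter_upwards [h] with x hx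
  · simpa using hx
  · simp [hx]

lemma exists_ne_zero : ∃ u : H1 N, ¬ u.fn =ᵐ[volume] 0 := by
  let χ : ContDiffBump (0 : EuclideanSpace ℝ (Fin N)) := ⟨1, 2, one_pos, one_lt_two⟩
  refine ⟨H1.ofSmooth χ χ.contDiff χ.hasCompactSupport, fun h => ?_⟩
  have := χ.integral_pos (μ := volume)
  rw [integral_congr_ae (f := fun x => χ x) (g := 0) h] at this
  simp at this

end Pool.Agent.P.MP_593b7e_an
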