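import Pool.Agent.P.MP_593b7e_an.Nehari

set_option autoImplicit false
set_option linter.unusedSectionVars false

open MeasureTheory Filter Topology Set Module
open scoped ContDiff ENNReal NNReal

namespace Pool.Agent.P.MP_593b7e_an

variable {N : ℕ} {p μ ν lam : ℝ}

lemma mol_tr (ρ : ContDiffBump (0 : EuclideanSpace ℝ (Fin N))) (y : EuclideanSpace ℝ (Fin N))
    (u : H1 N) : mol ρ (u.tr y).fn 0 = mol ρ u.fn y := by
  rw [mol_eq, mol_eq]
  congr 1
  ext t
  simp only [H1.tr]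
  congr 1
  abel

lemma Qb_tr (y : EuclideanSpace ℝ (Fin N)) (u v : H1 N) :
    Qb μ ν lam (u.tr y) (v.tr y) (u.tr y) (v.tr y) = Qb μ ν lam u v u v := by
  simp only [Qb, Dd_tr, Ll_tr]

lemma Conv.qb_split {u v : ℕ → H1 N} {U V : H1 N} (h : Conv u U) (h' : Conv v V) :
    Tendsto (fun n => Qb μ ν lam (u n) (v n) (u n) (v n) -
      Qb μ ν lam ((u n).sub U) ((v n).sub V) ((u n).sub U) ((v n).sub V)) atTop
      (𝓝 (Qb μ ν lam U V U V)) := by
  have := ((h.dd_split.add ((h.ll_split h).const_mul μ)).add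
    (h'.dd_split.add ((h'.ll_split h').const_mul ν))).sub
    (((h.ll_split h').add (h'.ll_split h)).const_mul lam)
  refine this.congr fun n => ?_
  unfold Qb
  ring

/-- Compactness: an almost minimising sequence whose first component does not vanish in
`L^(p+1)` produces a minimiser. -/
lemma Hyp.exists_minimizer (H : Hyp N p μ ν) (h0 : 0 ≤ lam) (h1 : lam < √(μ * ν))
    (u v : ℕ → H1 N) (ε : ℕ → ℝ) (hε : Tendsto ε atTop (𝓝 0))
    (hJ : Tendsto (fun n => Jf p μ ν lam (u n) (v n)) atTop (𝓝 0))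
    (hΦ : ∀ n, Phi p (u n) (v n) ≤ level N p μ ν lam + ε n) {δ : ℝ} (hδ : 0 < δ)
    (hA : ∀ n, δ ≤ Pp (p + 1) (u n)) :
    ∃ U V : H1 N, (U, V) ∈ nehari N p μ ν lam ∧ energy p μ ν lam U V = level N p μ ν lam := by
  have ha := H.a_pos
  have hb := H.b_pos
  obtain ⟨c, hc, hco⟩ := coercive (N := N) H.hμ H.hν h1
  obtain ⟨C1, hC1⟩ := hε.bddAbove_range
  obtain ⟨C2, hC2⟩ := hJ.bddAbove_range
  set m := level N p μ ν lam with hm
  have bA : ∀ n, Pp (p + 1) (u n) ≤ (m + C1) / (1 / 2 - 1 / (p + 1)) := by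
    intro n
    rw [le_div_iff₀ ha]
    have e1 := hΦ n
    have e2 := hC1 ⟨n, rfl⟩
    have e3 := mul_nonneg hb.le (Pp_nonneg (crit N) (v n))
    unfold Phi at e1
    linarith
  have bB : ∀ n, Pp (crit N) (v n) ≤ (m + C1) / (1 / 2 - 1 / crit N) := by
    intro n
    rw [le_div_iff₀ hb]
    have e1 := hΦ n
    have e2 := hC1 ⟨n, rfl⟩
    have e3 := mul_nonneg ha.le (Pp_nonneg (p + 1) (u n))
    unfold Phi at e1
    linarith
  set C3 := C2 + (m + C1) / (1 / 2 - 1 / (p + 1)) + (m + C1) / (1 / 2 - 1 / crit N) with hC3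
  have bQ : ∀ n, Dd (u n) (u n) + Dd (v n) (v n) + c * (Ll (u n) (u n) + Ll (v n) (v n)) ≤ C3 := by
    intro n
    refine (hco lam h0 le_rfl _ _).trans ?_
    have e1 : Jf p μ ν lam (u n) (v n) ≤ C2 := hC2 ⟨n, rfl⟩
    unfold Jf at e1
    linarith [bA n, bB n]
  set C := max C3 (C3 / c) with hC
  have bounds : ∀ n, Dd (u n) (u n) ≤ C ∧ Dd (v n) (v n) ≤ C ∧ Ll (u n) (u n) ≤ C ∧
      Ll (v n) (v n) ≤ C := by
    intro n
    have e1 := bQ n
    have e2 := Dd_nonneg (u n)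
    have e3 := Dd_nonneg (v n)
    have e4 := mul_nonneg hc.le (Ll_nonneg (u n))
    have e5 := mul_nonneg hc.le (Ll_nonneg (v n))
    refine ⟨le_max_of_le_left (by linarith), le_max_of_le_left (by linarith),
      le_max_of_le_right ?_, le_max_of_le_right ?_⟩ <;> rw [le_div_iff₀ hc] <;> linarith
  have hC0 : 0 ≤ C := (Dd_nonneg _).trans (bounds 0).1
  obtain ⟨K, hK, hsob⟩ := sobolev_H1 H.hN
  obtain ⟨ρ, κ, hκ, hl⟩ := lions (E := EuclideanSpace ℝ (Fin N)) (B := K * √C) H.q2 H.qs hC0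
    (by positivity) hδ
  have hy : ∀ n, ∃ y, κ ≤ |mol ρ (u n).fn y| := by
    intro n
    apply hl _ _ (u n).fn_memLp (u n).grad_memLp (u n).isWeakGrad
    · rw [← Ll_self]; exact (bounds n).2.2.1
    · rw [← Dd_self]; exact (bounds n).1
    · refine (hsob (u n)).trans (ENNReal.ofReal_le_ofReal ?_)
      gcongr
      exact (bounds n).1
    · exact hA n
  choose y hy using hy
  obtain ⟨φ1, hφ1, U, hU⟩ := exists_conv (fun n => (u n).tr (y n)) (C := C)
    (fun n => by rw [Dd_tr]; exact (bounds n).1) (fun n => by rw [Ll_tr]; exact (bounds n).2.2.1)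
  obtain ⟨φ2, hφ2, V, hV⟩ := exists_conv (fun n => (v (φ1 n)).tr (y (φ1 n))) (C := C)
    (fun n => by rw [Dd_tr]; exact (bounds _).2.1)
    (fun n => by rw [Ll_tr]; exact (bounds _).2.2.2)
  have hU' := hU.comp hφ2
  have hφ : Tendsto (fun n => φ1 (φ2 n)) atTop atTop := (hφ1.comp hφ2).tendsto_atTop
  set a : ℕ → H1 N := fun n => (u (φ1 (φ2 n))).tr (y (φ1 (φ2 n))) with hadef
  set b : ℕ → H1 N := fun n => (v (φ1 (φ2 n))).tr (y (φ1 (φ2 n))) with hbdef
  have hUpos : 0 < Pp (p + 1) U := by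
    have t1 := (hU'.weak _ (memLp_bump_sub ρ 0)).abs
    simp_rw [← mol_eq_inner] at t1
    have t2 : κ ≤ |mol ρ U.fn 0| := by
      refine ge_of_tendsto' t1 fun n => ?_
      rw [hadef]
      simp only [mol_tr]
      exact hy _
    refine lt_of_le_of_ne (Pp_nonneg _ _) fun h => ?_
    have h3 := (Pp_eq_zero_iff H.hN H.q2.le H.qs.le U).1 h.symm
    have h4 : mol ρ U.fn 0 = 0 := by
      rw [mol_eq_swap]
      apply integral_eq_zero_of_ae
      filter_upwards [h3] with x hx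
      simp [hx]
    rw [h4, abs_zero] at t2
    linarith
  have sA := hU'.pp_split H.hN H.q2.le H.qs.le (fun n => by rw [Pp_tr]; exact bA _)
  have sB := hV.pp_split H.hN H.s2.le le_rfl (fun n => by rw [Pp_tr]; exact bB _)
  have sQ := hU'.qb_split (μ := μ) (ν := ν) (lam := lam) hV
  have sJ : Tendsto (fun n => Jf p μ ν lam ((a n).sub U) ((b n).sub V)) atTop
      (𝓝 (-Jf p μ ν lam U V)) := by
    have := (hJ.comp hφ).sub ((sQ.sub sA).sub sB)
    rw [zero_sub] at this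
    refine this.congr fun n => ?_
    simp only [Function.comp, Jf, hadef, hbdef, Qb_tr, Pp_tr]
    ring
  have sΦ : Tendsto (fun n => Phi p (a n) (b n) - Phi p ((a n).sub U) ((b n).sub V)) atTop
      (𝓝 (Phi p U V)) := by
    refine ((sA.const_mul (1 / 2 - 1 / (p + 1))).add (sB.const_mul (1 / 2 - 1 / crit N))).congr
      fun n => ?_
    simp only [Phi, hadef, hbdef]
    ring
  have hΦ' : ∀ n, Phi p (a n) (b n) ≤ m + ε (φ1 (φ2 n)) := by
    intro n
    have := hΦ (φ1 (φ2 n))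
    simpa only [Phi, hadef, hbdef, Pp_tr] using this
  have hnz : 0 < Pp (p + 1) U + Pp (crit N) V := by linarith [Pp_nonneg (crit N) V]
  have hJle : Jf p μ ν lam U V ≤ 0 := by
    by_contra hcon
    rw [not_le] at hcon
    have e1 : Phi p U V ≤ 0 := by
      refine le_of_tendsto_of_tendsto sΦ (hε.comp hφ) ?_
      filter_upwards [sJ.eventually_lt_const (by linarith : -Jf p μ ν lam U V < 0)] with n hn
      have e2 : 0 < Pp (p + 1) ((a n).sub U) + Pp (crit N) ((b n).sub V) := by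
        have e3 := hco lam h0 le_rfl ((a n).sub U) ((b n).sub V)
        have e4 := Dd_nonneg ((a n).sub U)
        have e5 := Dd_nonneg ((b n).sub V)
        have e6 := mul_nonneg hc.le (add_nonneg (Ll_nonneg ((a n).sub U)) (Ll_nonneg ((b n).sub V)))
        unfold Jf at hn
        linarith
      have e3 := H.level_le' h0 h1 e2 hn.le
      have e4 := hΦ' n
      simp only [Function.comp]
      linarith
    have e2 : 0 < Phi p U V :=
      add_pos_of_pos_of_nonneg (mul_pos ha hUpos) (mul_nonneg hb.le (Pp_nonneg _ _))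
    linarith
  have hΦle : Phi p U V ≤ m := by
    have := (hε.comp hφ).const_add m
    rw [add_zero] at this
    refine le_of_tendsto_of_tendsto' sΦ this fun n => ?_
    have e1 := hΦ' n
    have e2 := H.Phi_nonneg ((a n).sub U) ((b n).sub V)
    simp only [Function.comp]
    linarith
  have hJ0 : Jf p μ ν lam U V = 0 := by
    by_contra hne
    have := H.level_lt h0 h1 hnz (lt_of_le_of_ne hJle hne)
    linarith
  refine ⟨U, V, (H.mem_nehari U V).2 ⟨hnz, hJ0⟩, ?_⟩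
  rw [energy_eq, hJ0]
  have := H.level_le hnz hJ0
  linarith

lemma rpow_div_ge {σ r : ℝ} (hσ : 0 < σ) (hr : 2 ≤ r) : σ ^ 2 / 2 - σ ^ r / r ≤ 1 / 2 - 1 / r := by
  have hr0 : 0 < r := by linarith
  have h := one_add_mul_self_le_rpow_one_add (s := σ ^ 2 - 1) (by nlinarith) (p := r / 2)
    (by linarith)
  rw [add_sub_cancel, ← Real.rpow_two, ← Real.rpow_mul hσ.le, mul_div_cancel₀ _ two_ne_zero,
    Real.rpow_two] at h
  have h2 : (1 + r / 2 * (σ ^ 2 - 1)) / r ≤ σ ^ r / r := by gcongr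
  have h3 : (1 + r / 2 * (σ ^ 2 - 1)) / r = 1 / r + (σ ^ 2 - 1) / 2 := by field_simp
  linarith

/-- The one-sided finite-dimensional step behind the natural constraint argument. -/
lemma natural_constraint {q s m Q' A' B' : ℝ} {Q A B : ℝ → ℝ} (hq : 2 < q) (hs : 2 < s)
    (hQ : HasDerivAt Q Q' 0) (hA : HasDerivAt A A' 0) (hB : HasDerivAt B B' 0)
    (hA0 : 0 ≤ A 0) (hB0 : 0 ≤ B 0) (hpos : 0 < A 0 + B 0) (hJ : Q 0 = A 0 + B 0)
    (hm : m = Q 0 / 2 - A 0 / q - B 0 / s)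
    (hmin : ∀ t a b, 0 < a → a ≤ b → 0 < Q t - a ^ (q - 2) * A t - a ^ (s - 2) * B t →
      Q t - b ^ (q - 2) * A t - b ^ (s - 2) * B t ≤ 0 →
      ∃ σ, a < σ ∧ σ ≤ b ∧ m ≤ σ ^ 2 * Q t / 2 - σ ^ q * A t / q - σ ^ s * B t / s) :
    0 ≤ Q' / 2 - A' / q - B' / s := by
  by_contra hneg
  rw [not_le] at hneg
  let G : ℝ × ℝ × ℝ × ℝ → ℝ := fun z =>
    z.1 ^ 2 * z.2.1 / 2 - z.1 ^ q * z.2.2.1 / q - z.1 ^ s * z.2.2.2 / s
  have hG : Continuous G := by
    have c1 : Continuous fun z : ℝ × ℝ × ℝ × ℝ => z.1 ^ q :=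
      (Real.continuous_rpow_const (by linarith)).comp continuous_fst
    have c2 : Continuous fun z : ℝ × ℝ × ℝ × ℝ => z.1 ^ s :=
      (Real.continuous_rpow_const (by linarith)).comp continuous_fst
    fun_prop
  have hG1 : G (1, Q', A', B') < 0 := by simpa [G] using hneg
  have hev := (hG.tendsto (1, Q', A', B')).eventually_lt_const hG1
  rw [nhds_prod_eq, eventually_prod_iff] at hev
  obtain ⟨P1, hP1, P2, hP2, hP⟩ := hev
  obtain ⟨η0, hη0, hη⟩ := Metric.eventually_nhds_iff.1 hP1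
  set η := min (η0 / 2) (1 / 2) with hηdef
  have hηpos : 0 < η := lt_min (by linarith) (by norm_num)
  have hη1 : η ≤ 1 / 2 := min_le_right _ _
  have hη2 : η < η0 := (min_le_left _ _).trans_lt (by linarith)
  have sl : Tendsto (fun t => (t⁻¹ • (Q (0 + t) - Q 0), t⁻¹ • (A (0 + t) - A 0),
      t⁻¹ • (B (0 + t) - B 0))) (𝓝[>] 0) (𝓝 (Q', A', B')) :=
    hQ.tendsto_slope_zero_right.prodMk_nhds
      (hA.tendsto_slope_zero_right.prodMk_nhds hB.tendsto_slope_zero_right)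
  have cont : ∀ a : ℝ, Tendsto (fun t => Q t - a ^ (q - 2) * A t - a ^ (s - 2) * B t) (𝓝[>] 0)
      (𝓝 (Q 0 - a ^ (q - 2) * A 0 - a ^ (s - 2) * B 0)) := fun a =>
    ((hQ.continuousAt.tendsto.sub (hA.continuousAt.tendsto.const_mul _)).sub
      (hB.continuousAt.tendsto.const_mul _)).mono_left nhdsWithin_le_nhds
  have lo : 0 < Q 0 - (1 - η) ^ (q - 2) * A 0 - (1 - η) ^ (s - 2) * B 0 := by
    have e1 : (1 - η) ^ (q - 2) < 1 := Real.rpow_lt_one (by linarith) (by linarith) (by linarith)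
    have e2 : (1 - η) ^ (s - 2) < 1 := Real.rpow_lt_one (by linarith) (by linarith) (by linarith)
    rcases hA0.eq_or_lt with h | h
    · rw [hJ, ← h]
      nlinarith
    · nlinarith [mul_pos (sub_pos.2 e1) h, mul_nonneg (sub_pos.2 e2).le hB0]
  have hi : Q 0 - (1 + η) ^ (q - 2) * A 0 - (1 + η) ^ (s - 2) * B 0 < 0 := by
    have e1 : 1 < (1 + η) ^ (q - 2) := Real.one_lt_rpow (by linarith) (by linarith)
    have e2 : 1 < (1 + η) ^ (s - 2) := Real.one_lt_rpow (by linarith) (by linarith)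
    rcases hA0.eq_or_lt with h | h
    · rw [hJ, ← h]
      nlinarith
    · nlinarith [mul_pos (sub_pos.2 e1) h, mul_nonneg (sub_pos.2 e2).le hB0]
  obtain ⟨t, ⟨⟨t1, t2⟩, t3⟩, ht⟩ := ((((cont (1 - η)).eventually_const_lt lo).and
    ((cont (1 + η)).eventually_lt_const hi)).and (sl.eventually hP2)).and self_mem_nhdsWithin
    |>.exists
  have ht' : 0 < t := ht
  obtain ⟨σ, σ1, σ2, hσ⟩ := hmin t (1 - η) (1 + η) (by linarith) (by linarith) t1 t2.le
  have hσ0 : 0 < σ := by linarith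
  have e1 := hP (hη (y := σ) (by rw [Real.dist_eq, abs_lt]; constructor <;> linarith)) t3
  simp only [G, zero_add, smul_eq_mul] at e1
  have e2 : σ ^ 2 * Q 0 / 2 - σ ^ q * A 0 / q - σ ^ s * B 0 / s ≤ m := by
    have f1 := mul_le_mul_of_nonneg_right (rpow_div_ge hσ0 hq.le) hA0
    have f2 := mul_le_mul_of_nonneg_right (rpow_div_ge hσ0 hs.le) hB0
    rw [hm, hJ]
    ring_nf at f1 f2 ⊢
    linarith
  have e3 := mul_neg_of_pos_of_neg ht' e1
  have e4 : t * (σ ^ 2 * (t⁻¹ * (Q t - Q 0)) / 2 - σ ^ q * (t⁻¹ * (A t - A 0)) / q -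
      σ ^ s * (t⁻¹ * (B t - B 0)) / s) = (σ ^ 2 * Q t / 2 - σ ^ q * A t / q - σ ^ s * B t / s) -
      (σ ^ 2 * Q 0 / 2 - σ ^ q * A 0 / q - σ ^ s * B 0 / s) := by
    field_simp
    ring
  linarith

lemma Nn_smul_right (r a : ℝ) (u φ : H1 N) : Nn r u (φ.smul a) = a * Nn r u φ := by
  unfold Nn
  rw [← integral_const_mul]
  congr 1
  ext x
  simp only [H1.smul]
  ring

/-- A minimiser on the Nehari set is a critical point. -/
lemma Hyp.critical (H : Hyp N p μ ν) {U V : H1 N} (hM : (U, V) ∈ nehari N p μ ν lam)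
    (hE : energy p μ ν lam U V = level N p μ ν lam) (φ ψ : H1 N) :
    energyDeriv p μ ν lam U V φ ψ = 0 := by
  obtain ⟨hnz, hJ⟩ := (H.mem_nehari U V).1 hM
  have hq := H.q2
  have hs := H.s2
  have key : ∀ φ ψ : H1 N, 0 ≤ energyDeriv p μ ν lam U V φ ψ := by
    intro φ ψ
    have hQt : ∀ t : ℝ, Qb μ ν lam (U.add (φ.smul t)) (V.add (ψ.smul t)) (U.add (φ.smul t))
        (V.add (ψ.smul t)) = Qb μ ν lam U V U V + 2 * Qb μ ν lam U V φ ψ * t +
          Qb μ ν lam φ ψ φ ψ * t ^ 2 := by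
      intro t
      simp only [Qb, Dd_add_left, Dd_add_right, Ll_add_left, Ll_add_right, Dd_smul_left,
        Dd_smul_right, Ll_smul_left, Ll_smul_right]
      rw [Dd_comm φ U, Dd_comm ψ V, Ll_comm φ U, Ll_comm ψ V, Ll_comm φ V, Ll_comm ψ U]
      ring
    have hP0 : ∀ (r : ℝ) (a b : H1 N), Pp r (a.add (b.smul 0)) = Pp r a := by
      intro r a b
      simp [Pp, H1.add, H1.smul]
    have dQ : HasDerivAt (fun t : ℝ => Qb μ ν lam (U.add (φ.smul t)) (V.add (ψ.smul t))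
        (U.add (φ.smul t)) (V.add (ψ.smul t))) (2 * Qb μ ν lam U V φ ψ) 0 := by
      simp_rw [hQt]
      have := (((hasDerivAt_id (0 : ℝ)).const_mul (2 * Qb μ ν lam U V φ ψ)).const_add
        (Qb μ ν lam U V U V)).fun_add ((hasDerivAt_pow 2 (0 : ℝ)).const_mul (Qb μ ν lam φ ψ φ ψ))
      simpa using this
    have dA : HasDerivAt (fun t : ℝ => Pp (p + 1) (U.add (φ.smul t)))
        ((p + 1) * Nn (p + 1) U φ) 0 :=
      hasDerivAt_integral_abs_rpow hq.le U.fn_memLp.1 φ.fn_memLp.1 (int_P H.hN hq.le H.qs.le U)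
        (int_P H.hN hq.le H.qs.le φ)
    have dB : HasDerivAt (fun t : ℝ => Pp (crit N) (V.add (ψ.smul t)))
        (crit N * Nn (crit N) V ψ) 0 :=
      hasDerivAt_integral_abs_rpow hs.le V.fn_memLp.1 ψ.fn_memLp.1 (int_P H.hN hs.le le_rfl V)
        (int_P H.hN hs.le le_rfl ψ)
    have := natural_constraint (m := level N p μ ν lam) hq hs dQ dA dB (Pp_nonneg _ _)
      (Pp_nonneg _ _) (by simpa only [hP0] using hnz)
      (by
        simp only [hQt, hP0]
        unfold Jf at hJ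
        linarith)
      (by
        simp only [hQt, hP0]
        rw [← hE, energy_eq]
        unfold Jf Phi
        ring)
      (by
        intro t a b ha hab l1 l2
        obtain ⟨σ, s1, s2, s3, s4⟩ := H.project ha.le hab l1 l2
        have hσ : 0 < σ := ha.trans s1
        refine ⟨σ, s1, s2, (H.level_le s3 s4).trans (le_of_eq ?_)⟩
        unfold Jf at s4
        rw [Qb_smul, Pp_smul, Pp_smul, abs_of_pos hσ] at s4
        rw [Phi_smul hσ]
        have : σ ^ 2 * Qb μ ν lam (U.add (φ.smul t)) (V.add (ψ.smul t)) (U.add (φ.smul t))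
          (V.add (ψ.smul t)) = σ ^ (p + 1) * Pp (p + 1) (U.add (φ.smul t)) +
            σ ^ crit N * Pp (crit N) (V.add (ψ.smul t)) := by linarith
        rw [this]
        ring)
    rw [energyDeriv_eq]
    refine this.trans (le_of_eq ?_)
    field_simp
  have k1 := key φ ψ
  have k2 := key (φ.smul (-1)) (ψ.smul (-1))
  rw [energyDeriv_eq] at k1 k2 ⊢
  simp only [Qb, Dd_smul_right, Ll_smul_right, Nn_smul_right] at k1 k2 ⊢
  linarith

end Pool.Agent.P.MP_593b7e_an
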