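import Mathlib

set_option autoImplicit false
set_option linter.unusedSectionVars false

open MeasureTheory Filter Topology Set
open scoped ContDiff ENNReal NNReal Convolution

namespace Pool.Agent.P.MP_593b7e_an

section Jensen

variable {X T F : Type*} [MeasurableSpace X] [MeasurableSpace T] [NormedAddCommGroup F]
  [NormedSpace ℝ F]

/-- Averaging over a probability space does not increase an `L^r` bound. -/
lemma eLpNorm_integral_le (μ : Measure X) [SFinite μ] (π : Measure T) [IsProbabilityMeasure π]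
    (H : X → T → F) (hH : AEStronglyMeasurable (Function.uncurry H) (μ.prod π))
    {r : ℝ≥0∞} (hr1 : 1 ≤ r) (hr : r ≠ ⊤) {K : ℝ≥0∞}
    (hK : ∀ᵐ t ∂π, eLpNorm (fun x => H x t) r μ ≤ K) :
    eLpNorm (fun x => ∫ t, H x t ∂π) r μ ≤ K := by
  have hr0 : r ≠ 0 := (zero_lt_one.trans_le hr1).ne'
  have hrpos : 0 < r.toReal := ENNReal.toReal_pos hr0 hr
  rw [eLpNorm_eq_lintegral_rpow_enorm_toReal hr0 hr]
  have h1 : ∀ᵐ x ∂μ, ‖∫ t, H x t ∂π‖ₑ ^ r.toReal ≤ ∫⁻ t, ‖H x t‖ₑ ^ r.toReal ∂π := by
    filter_upwards [hH.prodMk_left] with x hx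
    have e1 : ‖∫ t, H x t ∂π‖ₑ ≤ eLpNorm (H x) r π := by
      refine (enorm_integral_le_lintegral_enorm _).trans ?_
      rw [← eLpNorm_one_eq_lintegral_enorm]
      exact eLpNorm_le_eLpNorm_of_exponent_le hr1 hx
    rw [eLpNorm_eq_lintegral_rpow_enorm_toReal hr0 hr] at e1
    calc ‖∫ t, H x t ∂π‖ₑ ^ r.toReal
        ≤ ((∫⁻ t, ‖H x t‖ₑ ^ r.toReal ∂π) ^ (1 / r.toReal)) ^ r.toReal := by gcongr
      _ = ∫⁻ t, ‖H x t‖ₑ ^ r.toReal ∂π := by
        rw [← ENNReal.rpow_mul, one_div_mul_cancel hrpos.ne', ENNReal.rpow_one]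
  have h2 : ∫⁻ x, ‖∫ t, H x t ∂π‖ₑ ^ r.toReal ∂μ ≤ K ^ r.toReal := by
    refine (lintegral_mono_ae h1).trans ?_
    rw [lintegral_lintegral_swap (hH.enorm.pow_const _)]
    calc ∫⁻ t, ∫⁻ x, ‖H x t‖ₑ ^ r.toReal ∂μ ∂π ≤ ∫⁻ _t, K ^ r.toReal ∂π := by
          apply lintegral_mono_ae
          filter_upwards [hK] with t ht
          rw [eLpNorm_eq_lintegral_rpow_enorm_toReal hr0 hr] at ht
          calc ∫⁻ x, ‖H x t‖ₑ ^ r.toReal ∂μ
              = ((∫⁻ x, ‖H x t‖ₑ ^ r.toReal ∂μ) ^ (1 / r.toReal)) ^ r.toReal := by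
                rw [← ENNReal.rpow_mul, one_div_mul_cancel hrpos.ne', ENNReal.rpow_one]
            _ ≤ K ^ r.toReal := by gcongr
      _ = K ^ r.toReal := by simp
  calc (∫⁻ x, ‖∫ t, H x t ∂π‖ₑ ^ r.toReal ∂μ) ^ (1 / r.toReal)
      ≤ (K ^ r.toReal) ^ (1 / r.toReal) := by gcongr
    _ = K := by rw [← ENNReal.rpow_mul, mul_one_div_cancel hrpos.ne', ENNReal.rpow_one]

end Jensen

variable {E : Type*} [NormedAddCommGroup E] [InnerProductSpace ℝ E] [FiniteDimensional ℝ E]
  [MeasurableSpace E] [BorelSpace E]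
variable {F : Type*} [NormedAddCommGroup F] [NormedSpace ℝ F]

/-- The probability measure with density the normalised bump function. -/
noncomputable def bumpMeasure (ρ : ContDiffBump (0 : E)) : Measure E :=
  volume.withDensity (fun t => ENNReal.ofReal (ρ.normed volume t))

instance (ρ : ContDiffBump (0 : E)) : IsProbabilityMeasure (bumpMeasure ρ) := by
  constructor
  rw [bumpMeasure, withDensity_apply _ MeasurableSet.univ, Measure.restrict_univ,
    ← ofReal_integral_eq_lintegral_ofReal ρ.integrable_normed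
      (Eventually.of_forall ρ.nonneg_normed), ρ.integral_normed, ENNReal.ofReal_one]

lemma bumpMeasure_ac (ρ : ContDiffBump (0 : E)) : bumpMeasure ρ ≪ volume :=
  withDensity_absolutelyContinuous _ _

lemma ae_bumpMeasure (ρ : ContDiffBump (0 : E)) : ∀ᵐ t ∂(bumpMeasure ρ), ‖t‖ ≤ ρ.rOut := by
  rw [bumpMeasure, ae_withDensity_iff (ρ.continuous_normed.measurable.ennreal_ofReal)]
  refine Eventually.of_forall fun t ht => ?_
  have : t ∈ Function.support (ρ.normed volume) := by
    intro h0
    simp [h0] at ht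
  rw [ρ.support_normed_eq, mem_ball_zero_iff] at this
  exact this.le

/-- Mollification of `f` by the bump function `ρ`. -/
noncomputable def mol (ρ : ContDiffBump (0 : E)) (f : E → F) : E → F :=
  ρ.normed volume ⋆[ContinuousLinearMap.lsmul ℝ ℝ, volume] f

lemma integral_bumpMeasure (ρ : ContDiffBump (0 : E)) (h : E → F) :
    ∫ t, h t ∂(bumpMeasure ρ) = ∫ t, ρ.normed volume t • h t := by
  rw [bumpMeasure, integral_withDensity_eq_integral_toReal_smul
    (ρ.continuous_normed.measurable.ennreal_ofReal) (by simp)]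
  congr 1
  ext t
  rw [ENNReal.toReal_ofReal (ρ.nonneg_normed t)]

lemma mol_eq (ρ : ContDiffBump (0 : E)) (f : E → F) (x : E) :
    mol ρ f x = ∫ t, f (x - t) ∂(bumpMeasure ρ) := by
  rw [integral_bumpMeasure, mol, convolution_lsmul]

lemma mol_eq_swap (ρ : ContDiffBump (0 : E)) (f : E → F) (x : E) :
    mol ρ f x = ∫ t, ρ.normed volume (x - t) • f t := by
  rw [mol, convolution_lsmul_swap]

lemma aesm_sub {f : E → F} (hf : AEStronglyMeasurable f volume) (π : Measure E) [SFinite π] :
    AEStronglyMeasurable (fun z : E × E => f (z.1 - z.2)) (volume.prod π) :=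
  (hf.comp_quasiMeasurePreserving
    (quasiMeasurePreserving_sub_of_right_invariant volume π))

lemma eLpNorm_comp_sub_right {f : E → F} (hf : AEStronglyMeasurable f volume) (t : E)
    (r : ℝ≥0∞) : eLpNorm (fun x => f (x - t)) r volume = eLpNorm f r volume :=
  eLpNorm_comp_measurePreserving (g := f) hf (measurePreserving_sub_right volume t)

lemma eLpNorm_mol_le (ρ : ContDiffBump (0 : E)) {f : E → F} (hf : AEStronglyMeasurable f volume)
    {r : ℝ≥0∞} (hr1 : 1 ≤ r) (hr : r ≠ ⊤) : eLpNorm (mol ρ f) r volume ≤ eLpNorm f r volume := by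
  have : mol ρ f = fun x => ∫ t, f (x - t) ∂(bumpMeasure ρ) := funext (mol_eq ρ f)
  rw [this]
  apply eLpNorm_integral_le volume (bumpMeasure ρ) (fun x t => f (x - t))
    (aesm_sub hf _) hr1 hr
  exact Eventually.of_forall fun t => (eLpNorm_comp_sub_right hf t r).le

lemma contDiff_mol (ρ : ContDiffBump (0 : E)) {f : E → F} (hf : LocallyIntegrable f volume) :
    ContDiff ℝ ∞ (mol ρ f) :=
  ρ.hasCompactSupport_normed.contDiff_convolution_left _ ρ.contDiff_normed hf

/-- `g` is a weak gradient of `f`. -/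
def IsWeakGrad (f : E → ℝ) (g : E → E) : Prop :=
  ∀ φ : E → ℝ, ContDiff ℝ ∞ φ → HasCompactSupport φ →
    ∫ x, f x • gradient φ x = -∫ x, φ x • g x

lemma continuous_gradient {φ : E → ℝ} (hφ : ContDiff ℝ 1 φ) : Continuous (gradient φ) := by
  unfold gradient
  exact (InnerProductSpace.toDual ℝ E).symm.continuous.comp (hφ.continuous_fderiv one_ne_zero)

lemma hasCompactSupport_gradient {φ : E → ℝ} (hφ : HasCompactSupport φ) :
    HasCompactSupport (gradient φ) := by
  unfold gradient
  exact (hφ.fderiv ℝ).comp_left (g := (InnerProductSpace.toDual ℝ E).symm) (map_zero _)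

lemma norm_gradient (φ : E → ℝ) (x : E) : ‖gradient φ x‖ = ‖fderiv ℝ φ x‖ := by
  unfold gradient
  exact LinearIsometryEquiv.norm_map _ _

lemma inner_gradient (φ : E → ℝ) (x e : E) : inner ℝ (gradient φ x) e = fderiv ℝ φ x e := by
  unfold gradient
  exact InnerProductSpace.toDual_symm_apply

lemma gradient_mol (ρ : ContDiffBump (0 : E)) {f : E → ℝ} {g : E → E}
    (hf : LocallyIntegrable f volume) (hw : IsWeakGrad f g) (x : E) :
    gradient (mol ρ f) x = mol ρ g x := by
  set η := ρ.normed volume with hη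
  have hηs : ContDiff ℝ ∞ η := ρ.contDiff_normed
  have hη1 : ContDiff ℝ 1 η := ρ.contDiff_normed
  have hηc : HasCompactSupport η := ρ.hasCompactSupport_normed
  have h1 := hηc.hasFDerivAt_convolution_left (ContinuousLinearMap.lsmul ℝ ℝ) hη1 hf x
  have hφs : ContDiff ℝ ∞ (fun t => η (x - t)) := hηs.comp (contDiff_const.sub contDiff_id)
  have hφc : HasCompactSupport (fun t => η (x - t)) :=
    hηc.comp_homeomorph (Homeomorph.subLeft x)
  have hgr : ∀ t, gradient (fun t => η (x - t)) t = -gradient η (x - t) := by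
    intro t
    apply ext_inner_right ℝ
    intro e
    rw [inner_neg_left, inner_gradient, inner_gradient]
    have : HasFDerivAt (fun t => η (x - t))
        ((fderiv ℝ η (x - t)).comp (-ContinuousLinearMap.id ℝ E)) t :=
      ((hη1.differentiable one_ne_zero (x - t)).hasFDerivAt).comp t
        ((hasFDerivAt_id t).const_sub x)
    rw [this.fderiv]
    simp
  have h2 := hw _ hφs hφc
  simp_rw [hgr, smul_neg, integral_neg, neg_inj] at h2
  rw [mol_eq_swap, ← h2]
  have hint : Integrable (fun t => f t • gradient η (x - t)) volume := by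
    apply hf.integrable_smul_right_of_hasCompactSupport
    · exact (continuous_gradient hη1).comp (continuous_const.sub continuous_id)
    · exact (hasCompactSupport_gradient hηc).comp_homeomorph (Homeomorph.subLeft x)
  apply ext_inner_right ℝ
  intro e
  rw [inner_gradient, mol, h1.fderiv, real_inner_comm, ← integral_inner hint, convolution_eq_swap,
    ContinuousLinearMap.integral_apply]
  · congr 1
    ext t
    simp [inner_smul_right, mul_comm]
  · have := (hηc.fderiv ℝ).convolutionExists_left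
      ((ContinuousLinearMap.lsmul ℝ ℝ : ℝ →L[ℝ] ℝ →L[ℝ] ℝ).precompL E)
      (hη1.continuous_fderiv one_ne_zero) hf x
    exact this.integrable_swap

end Pool.Agent.P.MP_593b7e_an
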