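import Pool.Agent.P.MP_593b7e_an.H1Ops

set_option autoImplicit false
set_option linter.unusedSectionVars false

open MeasureTheory Filter Topology Set Module
open scoped ContDiff ENNReal NNReal

namespace Pool.Agent.P.MP_593b7e_an

variable {N : ℕ}

/-- Weak convergence in `H¹` together with almost everywhere convergence. -/
structure Conv (u : ℕ → H1 N) (U : H1 N) : Prop where
  weak : ∀ h : EuclideanSpace ℝ (Fin N) → ℝ, MemLp h 2 volume →
    Tendsto (fun n => ∫ x, inner ℝ ((u n).fn x) (h x)) atTop (𝓝 (∫ x, inner ℝ (U.fn x) (h x)))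
  dd : ∀ φ : H1 N, Tendsto (fun n => Dd (u n) φ) atTop (𝓝 (Dd U φ))
  ae : ∀ᵐ x ∂(volume : Measure (EuclideanSpace ℝ (Fin N))),
    Tendsto (fun n => (u n).fn x) atTop (𝓝 (U.fn x))

lemma Conv.comp {u : ℕ → H1 N} {U : H1 N} (h : Conv u U) {φ : ℕ → ℕ} (hφ : StrictMono φ) :
    Conv (fun n => u (φ n)) U :=
  ⟨fun g hg => (h.weak g hg).comp hφ.tendsto_atTop, fun g => (h.dd g).comp hφ.tendsto_atTop,
    h.ae.mono fun _ hx => hx.comp hφ.tendsto_atTop⟩

lemma Conv.ll {u : ℕ → H1 N} {U : H1 N} (h : Conv u U) (φ : H1 N) :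
    Tendsto (fun n => Ll (u n) φ) atTop (𝓝 (Ll U φ)) := by
  have := h.weak φ.fn φ.fn_memLp
  simpa [Ll, mul_comm] using this

lemma exists_conv (u : ℕ → H1 N) {C : ℝ} (hD : ∀ n, Dd (u n) (u n) ≤ C)
    (hL : ∀ n, Ll (u n) (u n) ≤ C) :
    ∃ φ : ℕ → ℕ, StrictMono φ ∧ ∃ U : H1 N, Conv (fun n => u (φ n)) U := by
  simp_rw [Dd_self] at hD
  simp_rw [Ll_self] at hL
  obtain ⟨φ1, hφ1, f, hf, hfw⟩ := weak_subseq (fun n => (u n).fn_memLp) hL
  obtain ⟨φ2, hφ2, g, hg, hgw⟩ := weak_subseq (fun n => (u (φ1 n)).grad_memLp)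
    (fun n => hD (φ1 n))
  have hfw2 : ∀ h : EuclideanSpace ℝ (Fin N) → ℝ, MemLp h 2 volume →
      Tendsto (fun n => ∫ x, inner ℝ ((u (φ1 (φ2 n))).fn x) (h x)) atTop
        (𝓝 (∫ x, inner ℝ (f x) (h x))) := fun h hh => (hfw h hh).comp hφ2.tendsto_atTop
  have hw : IsWeakGrad f g := by
    intro ψ h1 h2
    apply ext_inner_left ℝ
    intro e
    have key : ∀ (f : EuclideanSpace ℝ (Fin N) → ℝ)
        (g : EuclideanSpace ℝ (Fin N) → EuclideanSpace ℝ (Fin N)), MemLp f 2 volume →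
        MemLp g 2 volume →
        inner ℝ e (∫ x, f x • gradient ψ x) = ∫ x, inner ℝ (f x) (inner ℝ e (gradient ψ x)) ∧
        inner ℝ e (-∫ x, ψ x • g x) = -∫ x, inner ℝ (g x) (ψ x • e) := by
      intro f g hf hg
      rw [inner_neg_right, ← integral_inner (integrable_smul_two hf (memLp_test_grad h1 h2)),
        ← integral_inner (integrable_smul_two (memLp_test h1 h2) hg)]
      constructor
      · congr 1
        ext x
        simp [real_inner_smul_right, mul_comm]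
      · congr 2
        ext x
        rw [real_inner_smul_right, real_inner_smul_right, real_inner_comm]
    rw [(key f g hf hg).1, (key f g hf hg).2]
    have t1 := hfw2 _ ((memLp_test_grad h1 h2).const_inner (𝕜 := ℝ) e)
    have hm : MemLp (fun x => ψ x • e) 2 volume :=
      (h1.continuous.smul continuous_const).memLp_of_hasCompactSupport h2.smul_right
    have t2 := (hgw _ hm).neg
    refine tendsto_nhds_unique t1 (t2.congr fun n => ?_)
    rw [← (key _ _ (u (φ1 (φ2 n))).fn_memLp (u (φ1 (φ2 n))).grad_memLp).1,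
      ← (key _ _ (u (φ1 (φ2 n))).fn_memLp (u (φ1 (φ2 n))).grad_memLp).2,
      (u (φ1 (φ2 n))).weak ψ h1 h2]
  obtain ⟨φ3, hφ3, hae⟩ := rellich_ae (fun n => (u (φ1 (φ2 n))).fn_memLp)
    (fun n => (u (φ1 (φ2 n))).grad_memLp) (fun n => (u (φ1 (φ2 n))).isWeakGrad) hf hg hw
    (fun n => hL _) (fun n => hD _) hfw2
  refine ⟨fun n => φ1 (φ2 (φ3 n)), hφ1.comp (hφ2.comp hφ3), ⟨f, g, hf, hg, hw⟩, ?_, ?_, hae⟩
  · exact fun h hh => (hfw2 h hh).comp hφ3.tendsto_atTop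
  · exact fun ψ => (hgw ψ.grad ψ.grad_memLp).comp hφ3.tendsto_atTop

lemma Dd_sub_sub (u U v V : H1 N) :
    Dd (u.sub U) (v.sub V) = Dd u v - Dd u V - Dd v U + Dd U V := by
  simp only [H1.sub, Dd_add_left, Dd_add_right, Dd_smul_left, Dd_smul_right]
  rw [Dd_comm U v]
  ring

lemma Ll_sub_sub (u U v V : H1 N) :
    Ll (u.sub U) (v.sub V) = Ll u v - Ll u V - Ll v U + Ll U V := by
  simp only [H1.sub, Ll_add_left, Ll_add_right, Ll_smul_left, Ll_smul_right]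
  rw [Ll_comm U v]
  ring

lemma Conv.dd_split {u : ℕ → H1 N} {U : H1 N} (h : Conv u U) :
    Tendsto (fun n => Dd (u n) (u n) - Dd ((u n).sub U) ((u n).sub U)) atTop (𝓝 (Dd U U)) := by
  have := ((h.dd U).add (h.dd U)).sub_const (Dd U U)
  rw [add_sub_cancel_right] at this
  refine this.congr fun n => ?_
  rw [Dd_sub_sub]
  ring

lemma Conv.ll_split {u v : ℕ → H1 N} {U V : H1 N} (h : Conv u U) (h' : Conv v V) :
    Tendsto (fun n => Ll (u n) (v n) - Ll ((u n).sub U) ((v n).sub V)) atTop (𝓝 (Ll U V)) := by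
  have := ((h.ll V).add (h'.ll U)).sub_const (Ll U V)
  rw [Ll_comm V U, add_sub_cancel_right] at this
  refine this.congr fun n => ?_
  rw [Ll_sub_sub]
  ring

lemma Pp_sub_le (hN : 3 ≤ N) {r : ℝ} (h1 : 2 ≤ r) (h2 : r ≤ crit N) (u U : H1 N) :
    Pp r (u.sub U) ≤ 2 ^ r * (Pp r u + Pp r U) := by
  unfold Pp
  rw [← integral_add (int_P hN h1 h2 u) (int_P hN h1 h2 U), ← integral_const_mul]
  apply integral_mono (int_P hN h1 h2 _) ((iadd (int_P hN h1 h2 u) (int_P hN h1 h2 U)).const_mul _)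
  intro x
  have := abs_add_rpow_le (u.fn x) (-U.fn x) (by linarith : 0 ≤ r)
  simpa [H1.sub_fn, sub_eq_add_neg] using this

lemma Conv.pp_split (hN : 3 ≤ N) {r C : ℝ} (h1 : 2 ≤ r) (h2 : r ≤ crit N) {u : ℕ → H1 N}
    {U : H1 N} (h : Conv u U) (hC : ∀ n, Pp r (u n) ≤ C) :
    Tendsto (fun n => Pp r (u n) - Pp r ((u n).sub U)) atTop (𝓝 (Pp r U)) := by
  have := brezis_lieb (C := 2 ^ r * (C + Pp r U)) (by linarith : 0 < r)
    (fun n => (u n).fn_memLp.1) U.fn_memLp.1 (fun n => int_P hN h1 h2 (u n)) (int_P hN h1 h2 U)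
    (fun n => by
      have := Pp_sub_le hN h1 h2 (u n) U
      simp only [Pp, H1.sub_fn] at this
      refine this.trans ?_
      gcongr
      · exact hC n
      · exact le_rfl) h.ae
  simpa only [Pp, H1.sub_fn] using this

/-- The bilinear part of the energy. -/
noncomputable def Qb (μ ν lam : ℝ) (u v φ ψ : H1 N) : ℝ :=
  Dd u φ + μ * Ll u φ + (Dd v ψ + ν * Ll v ψ) - lam * (Ll u ψ + Ll v φ)

/-- The Nehari functional. -/
noncomputable def Jf (p μ ν lam : ℝ) (u v : H1 N) : ℝ :=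
  Qb μ ν lam u v u v - Pp (p + 1) u - Pp (crit N) v

/-- The energy minus half the Nehari functional. -/
noncomputable def Phi (p : ℝ) (u v : H1 N) : ℝ :=
  (1 / 2 - 1 / (p + 1)) * Pp (p + 1) u + (1 / 2 - 1 / crit N) * Pp (crit N) v

lemma energyDeriv_eq (p μ ν lam : ℝ) (u v φ ψ : H1 N) :
    energyDeriv p μ ν lam u v φ ψ = Qb μ ν lam u v φ ψ - Nn (p + 1) u φ - Nn (crit N) v ψ := by
  unfold energyDeriv Qb Nn Dd Ll
  simp_rw [mul_assoc μ, mul_assoc ν]
  rw [integral_add (int_D u φ) ((int_L u φ).const_mul μ),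
    integral_add (int_D v ψ) ((int_L v ψ).const_mul ν), integral_add (int_L u ψ) (int_L v φ),
    integral_const_mul, integral_const_mul, show p + 1 - 2 = p - 1 by ring]
  ring

lemma energy_eq (p μ ν lam : ℝ) (u v : H1 N) :
    energy p μ ν lam u v = Jf p μ ν lam u v / 2 + Phi p u v := by
  unfold energy Jf Phi Qb
  have e : ∀ (c : ℝ) (u : H1 N), ∫ x, (‖u.grad x‖ ^ 2 + c * u.fn x ^ 2) = Dd u u + c * Ll u u := by
    intro c u
    unfold Dd Ll
    rw [← integral_const_mul, ← integral_add (int_D u u) ((int_L u u).const_mul c)]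
    simp_rw [real_inner_self_eq_norm_sq, sq]
  rw [e, e, Ll_comm v u]
  unfold Pp Ll
  ring

lemma Qb_smul (μ ν lam t : ℝ) (u v : H1 N) :
    Qb μ ν lam (u.smul t) (v.smul t) (u.smul t) (v.smul t) = t ^ 2 * Qb μ ν lam u v u v := by
  simp only [Qb, Dd_smul_left, Dd_smul_right, Ll_smul_left, Ll_smul_right]
  ring

lemma coercive {μ ν lam1 : ℝ} (hμ : 0 < μ) (hν : 0 < ν) (h1 : lam1 < √(μ * ν)) :
    ∃ c, 0 < c ∧ ∀ lam, 0 ≤ lam → lam ≤ lam1 → ∀ u v : H1 N,
      Dd u u + Dd v v + c * (Ll u u + Ll v v) ≤ Qb μ ν lam u v u v := by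
  have hs : 0 < √(μ * ν) := by positivity
  set θ := max lam1 0 / √(μ * ν) with hθ
  have hθ1 : θ < 1 := by
    rw [hθ, div_lt_one hs]
    exact max_lt h1 hs
  have hθ0 : 0 ≤ θ := by positivity
  refine ⟨(1 - θ) * min μ ν, mul_pos (by linarith) (lt_min hμ hν), fun lam h0 hl u v => ?_⟩
  have k := Ll_sq_le u v (√μ) (√ν)
  rw [Real.sq_sqrt hμ.le, Real.sq_sqrt hν.le, mul_assoc 2, ← Real.sqrt_mul hμ.le] at k
  have hu := Ll_nonneg u
  have hv := Ll_nonneg v
  have k2 : 2 * lam * Ll u v ≤ θ * (μ * Ll u u + ν * Ll v v) := by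
    rcases le_total (Ll u v) 0 with h | h
    · exact le_trans (mul_nonpos_of_nonneg_of_nonpos (by positivity) h) (by positivity)
    · calc 2 * lam * Ll u v ≤ 2 * max lam1 0 * Ll u v := by
            gcongr
            exact hl.trans (le_max_left _ _)
        _ = θ * (2 * √(μ * ν) * Ll u v) := by rw [hθ]; field_simp
        _ ≤ θ * (μ * Ll u u + ν * Ll v v) := by gcongr
  have k3 : min μ ν * (Ll u u + Ll v v) ≤ μ * Ll u u + ν * Ll v v := by
    rw [mul_add]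
    gcongr
    · exact min_le_left _ _
    · exact min_le_right _ _
  unfold Qb
  rw [Ll_comm v u]
  nlinarith [mul_le_mul_of_nonneg_left k3 (by linarith : 0 ≤ 1 - θ)]

/-- The standing hypotheses. -/
structure Hyp (N : ℕ) (p μ ν : ℝ) : Prop where
  hN : 3 ≤ N
  hp : 1 < p
  hp' : p < crit N - 1
  hμ : 0 < μ
  hν : 0 < ν

variable {p μ ν lam : ℝ}

lemma Hyp.q2 (H : Hyp N p μ ν) : 2 < p + 1 := by linarith [H.hp]
lemma Hyp.qs (H : Hyp N p μ ν) : p + 1 < crit N := by linarith [H.hp']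
lemma Hyp.s2 (H : Hyp N p μ ν) : 2 < crit N := crit_gt_two H.hN

lemma Hyp.a_pos (H : Hyp N p μ ν) : 0 < 1 / 2 - 1 / (p + 1) :=
  sub_pos.2 (one_div_lt_one_div_of_lt two_pos H.q2)

lemma Hyp.b_pos (H : Hyp N p μ ν) : 0 < 1 / 2 - 1 / crit N :=
  sub_pos.2 (one_div_lt_one_div_of_lt two_pos H.s2)

lemma Hyp.nz_iff (H : Hyp N p μ ν) (u v : H1 N) :
    ¬ (u.fn =ᵐ[volume] 0 ∧ v.fn =ᵐ[volume] 0) ↔ 0 < Pp (p + 1) u + Pp (crit N) v := by
  rw [← Pp_eq_zero_iff H.hN H.q2.le H.qs.le, ← Pp_eq_zero_iff H.hN H.s2.le le_rfl]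
  have h1 := Pp_nonneg (p + 1) u
  have h2 := Pp_nonneg (crit N) v
  constructor
  · intro h
    by_contra hc
    exact h ⟨by linarith, by linarith⟩
  · rintro h ⟨h3, h4⟩
    linarith

lemma Hyp.mem_nehari (H : Hyp N p μ ν) (u v : H1 N) :
    (u, v) ∈ nehari N p μ ν lam ↔ 0 < Pp (p + 1) u + Pp (crit N) v ∧ Jf p μ ν lam u v = 0 := by
  unfold nehari
  rw [mem_ofPred_eq, H.nz_iff, energyDeriv_eq, Nn_self H.q2.le, Nn_self H.s2.le]
  rfl

lemma Hyp.Phi_nonneg (H : Hyp N p μ ν) (u v : H1 N) : 0 ≤ Phi p u v :=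
  add_nonneg (mul_nonneg H.a_pos.le (Pp_nonneg _ _)) (mul_nonneg H.b_pos.le (Pp_nonneg _ _))

lemma Hyp.level_le (H : Hyp N p μ ν) {u v : H1 N} (h1 : 0 < Pp (p + 1) u + Pp (crit N) v)
    (h2 : Jf p μ ν lam u v = 0) : level N p μ ν lam ≤ Phi p u v := by
  have : Phi p u v = energy p μ ν lam u v := by rw [energy_eq, h2]; ring
  rw [this]
  apply csInf_le
  · refine ⟨0, ?_⟩
    rintro _ ⟨⟨a, b⟩, hw, rfl⟩
    have := ((H.mem_nehari a b).1 hw).2
    simp only [energy_eq, this]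
    linarith [H.Phi_nonneg a b]
  · exact ⟨(u, v), (H.mem_nehari u v).2 ⟨h1, h2⟩, rfl⟩

lemma Hyp.Qb_pos (H : Hyp N p μ ν) (h0 : 0 ≤ lam) (h1 : lam < √(μ * ν)) {u v : H1 N}
    (h : 0 < Pp (p + 1) u + Pp (crit N) v) : 0 < Qb μ ν lam u v u v := by
  obtain ⟨c, hc, hco⟩ := coercive (N := N) H.hμ H.hν h1
  refine lt_of_lt_of_le ?_ (hco lam h0 le_rfl u v)
  rw [← H.nz_iff, ← Ll_eq_zero_iff, ← Ll_eq_zero_iff] at h
  have h2 := Ll_nonneg u
  have h3 := Ll_nonneg v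
  have h4 : 0 < Ll u u + Ll v v := by
    by_contra hcon
    exact h ⟨by linarith, by linarith⟩
  have := Dd_nonneg u
  have := Dd_nonneg v
  positivity

lemma Jf_smul {t : ℝ} (ht : 0 < t) (u v : H1 N) :
    Jf p μ ν lam (u.smul t) (v.smul t) = t ^ 2 * (Qb μ ν lam u v u v -
      t ^ (p + 1 - 2) * Pp (p + 1) u - t ^ (crit N - 2) * Pp (crit N) v) := by
  unfold Jf
  rw [Qb_smul, Pp_smul, Pp_smul, abs_of_pos ht, Real.rpow_sub ht, Real.rpow_sub ht, Real.rpow_two]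
  field_simp

lemma Phi_smul {t : ℝ} (ht : 0 < t) (u v : H1 N) :
    Phi p (u.smul t) (v.smul t) = (1 / 2 - 1 / (p + 1)) * (t ^ (p + 1) * Pp (p + 1) u) +
      (1 / 2 - 1 / crit N) * (t ^ crit N * Pp (crit N) v) := by
  unfold Phi
  rw [Pp_smul, Pp_smul, abs_of_pos ht]

/-- Projection onto the Nehari set between two scales. -/
lemma Hyp.project (H : Hyp N p μ ν) {u v : H1 N} {a b : ℝ} (ha : 0 ≤ a) (hab : a ≤ b)
    (h1 : 0 < Qb μ ν lam u v u v - a ^ (p + 1 - 2) * Pp (p + 1) u -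
      a ^ (crit N - 2) * Pp (crit N) v)
    (h2 : Qb μ ν lam u v u v - b ^ (p + 1 - 2) * Pp (p + 1) u -
      b ^ (crit N - 2) * Pp (crit N) v ≤ 0) :
    ∃ t, a < t ∧ t ≤ b ∧ 0 < Pp (p + 1) (u.smul t) + Pp (crit N) (v.smul t) ∧
      Jf p μ ν lam (u.smul t) (v.smul t) = 0 := by
  have hq := H.q2
  have hs := H.s2
  have hc : Continuous (fun t : ℝ => Qb μ ν lam u v u v - t ^ (p + 1 - 2) * Pp (p + 1) u -
      t ^ (crit N - 2) * Pp (crit N) v) :=
    (continuous_const.sub ((Real.continuous_rpow_const (by linarith)).mul continuous_const)).sub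
      ((Real.continuous_rpow_const (by linarith)).mul continuous_const)
  obtain ⟨t, ht, ht0⟩ := intermediate_value_Icc' hab hc.continuousOn ⟨h2, h1.le⟩
  have hta : a < t := by
    refine lt_of_le_of_ne ht.1 ?_
    rintro rfl
    exact h1.ne' ht0
  have htp : 0 < t := ha.trans_lt hta
  refine ⟨t, hta, ht.2, ?_, by rw [Jf_smul htp]; simp only at ht0; rw [ht0, mul_zero]⟩
  rw [Pp_smul, Pp_smul, abs_of_pos htp]
  have hA := Pp_nonneg (p + 1) u
  have hB := Pp_nonneg (crit N) v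
  by_contra hcon
  have e1 : 0 ≤ t ^ (p + 1) * Pp (p + 1) u := by positivity
  have e2 : 0 ≤ t ^ crit N * Pp (crit N) v := by positivity
  have e3 : Pp (p + 1) u = 0 := by
    have : t ^ (p + 1) * Pp (p + 1) u = 0 := by linarith
    exact (mul_eq_zero.1 this).resolve_left (by positivity)
  have e4 : Pp (crit N) v = 0 := by
    have : t ^ crit N * Pp (crit N) v = 0 := by linarith
    exact (mul_eq_zero.1 this).resolve_left (by positivity)
  simp only [e3, e4] at h1 h2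
  linarith

lemma Hyp.project_one (H : Hyp N p μ ν) (h0 : 0 ≤ lam) (h1 : lam < √(μ * ν)) {u v : H1 N}
    (h : 0 < Pp (p + 1) u + Pp (crit N) v) (hJ : Jf p μ ν lam u v ≤ 0) :
    ∃ t, 0 < t ∧ t ≤ 1 ∧ 0 < Pp (p + 1) (u.smul t) + Pp (crit N) (v.smul t) ∧
      Jf p μ ν lam (u.smul t) (v.smul t) = 0 := by
  have hq := H.q2
  have hs := H.s2
  apply H.project le_rfl zero_le_one
  · rw [Real.zero_rpow (by linarith), Real.zero_rpow (by linarith)]
    simpa using H.Qb_pos h0 h1 h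
  · simpa [Jf] using hJ

lemma Hyp.level_le' (H : Hyp N p μ ν) (h0 : 0 ≤ lam) (h1 : lam < √(μ * ν)) {u v : H1 N}
    (h : 0 < Pp (p + 1) u + Pp (crit N) v) (hJ : Jf p μ ν lam u v ≤ 0) :
    level N p μ ν lam ≤ Phi p u v := by
  obtain ⟨t, ht0, ht1, h2, h3⟩ := H.project_one h0 h1 h hJ
  refine (H.level_le h2 h3).trans ?_
  rw [Phi_smul ht0]
  unfold Phi
  have := H.a_pos
  have := H.b_pos
  have hq := H.q2
  have hs := H.s2
  gcongr
  · exact mul_le_of_le_one_left (Pp_nonneg _ _) (Real.rpow_le_one ht0.le ht1 (by linarith))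
  · exact mul_le_of_le_one_left (Pp_nonneg _ _) (Real.rpow_le_one ht0.le ht1 (by linarith))

lemma Hyp.level_lt (H : Hyp N p μ ν) (h0 : 0 ≤ lam) (h1 : lam < √(μ * ν)) {u v : H1 N}
    (h : 0 < Pp (p + 1) u + Pp (crit N) v) (hJ : Jf p μ ν lam u v < 0) :
    level N p μ ν lam < Phi p u v := by
  obtain ⟨t, ht0, ht1, h2, h3⟩ := H.project_one h0 h1 h hJ.le
  have ht : t < 1 := by
    refine lt_of_le_of_ne ht1 ?_
    rintro rfl
    rw [Jf_smul one_pos] at h3
    simp only [one_pow, Real.one_rpow, one_mul] at h3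
    exact hJ.ne h3
  refine (H.level_le h2 h3).trans_lt ?_
  rw [Phi_smul ht0]
  unfold Phi
  have ha := H.a_pos
  have hb := H.b_pos
  have hq := H.q2
  have hs := H.s2
  have hA := Pp_nonneg (p + 1) u
  have hB := Pp_nonneg (crit N) v
  have e1 : t ^ (p + 1) < 1 := Real.rpow_lt_one ht0.le ht (by linarith)
  have e2 : t ^ crit N < 1 := Real.rpow_lt_one ht0.le ht (by linarith)
  have e3 := mul_pos ha (sub_pos.2 e1)
  have e4 := mul_pos hb (sub_pos.2 e2)
  rcases hA.eq_or_lt with hA0 | hA0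
  · have : 0 < Pp (crit N) v := by linarith
    rw [← hA0]
    nlinarith [mul_pos e4 this]
  · nlinarith [mul_pos e3 hA0, mul_nonneg e4.le hB]

end Pool.Agent.P.MP_593b7e_an
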