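import Pool.Agent.P.MP_593b7e_an.Minimizer

set_option autoImplicit false
set_option linter.unusedSectionVars false

open MeasureTheory Filter Topology Set Module
open scoped ContDiff ENNReal NNReal

namespace Pool.Agent.P.MP_593b7e_an

variable {N : ℕ} {p μ ν lam : ℝ}

/-- The levels of the limit problem at infinity. -/
def critSet (N : ℕ) : Set ℝ :=
  {x | ∃ v : H1 N, 0 < Pp (crit N) v ∧ Dd v v ≤ Pp (crit N) v ∧
    x = (1 / 2 - 1 / crit N) * Pp (crit N) v}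

lemma exists_Pp_pos (hN : 3 ≤ N) : ∃ v : H1 N, ∀ r, 2 ≤ r → r ≤ crit N → 0 < Pp r v := by
  obtain ⟨v, hv⟩ := exists_ne_zero (N := N)
  exact ⟨v, fun r h1 h2 => lt_of_le_of_ne (Pp_nonneg _ _)
    fun h => hv ((Pp_eq_zero_iff hN h1 h2 v).1 h.symm)⟩

lemma rpow_eq_sq_mul {t : ℝ} (ht : 0 < t) (r : ℝ) : t ^ r = t ^ 2 * t ^ (r - 2) := by
  rw [Real.rpow_sub ht, Real.rpow_two]
  field_simp

lemma critSet_nonempty (hN : 3 ≤ N) : (critSet N).Nonempty := by
  have hs := crit_gt_two hN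
  obtain ⟨v, hv⟩ := exists_Pp_pos hN
  have hB := hv _ hs.le le_rfl
  obtain ⟨t, ht1, ht⟩ := ((((tendsto_rpow_atTop (by linarith : 0 < crit N - 2)).atTop_mul_const
    hB).eventually_ge_atTop (Dd v v)).and (eventually_gt_atTop 0)).exists
  refine ⟨_, v.smul t, ?_, ?_, rfl⟩
  · rw [Pp_smul, abs_of_pos ht]
    positivity
  · rw [Pp_smul, abs_of_pos ht, Dd_smul_left, Dd_smul_right, rpow_eq_sq_mul ht]
    nlinarith [mul_le_mul_of_nonneg_left ht1 (sq_nonneg t)]

lemma Dd_pos (hN : 3 ≤ N) {v : H1 N} (hv : 0 < Pp (crit N) v) : 0 < Dd v v := by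
  obtain ⟨K, hK, h⟩ := sobolev_Pp hN
  refine lt_of_le_of_ne (Dd_nonneg v) fun h0 => ?_
  have := (h v).2
  rw [← h0, Real.zero_rpow (by linarith [crit_gt_two hN]), mul_zero] at this
  linarith

lemma lower_of_rpow {c K x e : ℝ} (hc : 0 < c) (hK : 0 < K) (hx : 0 < x) (he : 1 < e)
    (h : c * x ≤ K * x ^ e) : (c / K) ^ (e - 1)⁻¹ ≤ x := by
  rw [Real.rpow_inv_le_iff_of_pos (by positivity) hx.le (by linarith), div_le_iff₀ hK,
    Real.rpow_sub_one hx.ne', div_mul_eq_mul_div, le_div_iff₀ hx]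
  linarith

lemma critSet_bdd (hN : 3 ≤ N) : ∃ b, 0 < b ∧ ∀ x ∈ critSet N, b ≤ x := by
  have hs := crit_gt_two hN
  obtain ⟨K, hK, h⟩ := sobolev_Pp hN
  have hb : 0 < 1 / 2 - 1 / crit N := sub_pos.2 (one_div_lt_one_div_of_lt two_pos hs)
  refine ⟨(1 / 2 - 1 / crit N) * (1 / K) ^ (crit N / 2 - 1)⁻¹, by positivity, ?_⟩
  rintro _ ⟨v, h1, h2, rfl⟩
  gcongr
  refine le_trans (lower_of_rpow one_pos hK (Dd_pos hN h1) (by linarith) ?_) h2
  rw [one_mul]
  exact h2.trans (h v).2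

lemma cinf_pos (hN : 3 ≤ N) : 0 < sInf (critSet N) := by
  obtain ⟨b, hb, h⟩ := critSet_bdd hN
  exact hb.trans_le (le_csInf (critSet_nonempty hN) h)

lemma Hyp.Pp_zero (H : Hyp N p μ ν) (v : H1 N) : Pp (p + 1) (v.smul 0) = 0 := by
  rw [Pp_smul, abs_zero, Real.zero_rpow (by linarith [H.q2]), zero_mul]

lemma Qb_zero (v w : H1 N) : Qb μ ν lam (v.smul 0) w (v.smul 0) w = Dd w w + ν * Ll w w := by
  simp [Qb, Dd_smul_left, Ll_smul_left, Ll_smul_right]

lemma Hyp.level_le_cinf (H : Hyp N p μ ν) (h0 : 0 ≤ lam) (h1 : lam < √(μ * ν)) :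
    level N p μ ν lam ≤ sInf (critSet N) := by
  have hs := H.s2
  have hν := H.hν
  have hN3 : (3 : ℝ) ≤ N := by exact_mod_cast H.hN
  refine le_csInf (critSet_nonempty H.hN) ?_
  rintro _ ⟨v, hB, hD, rfl⟩
  have key : ∀ t : ℝ, 1 < t →
      level N p μ ν lam ≤ (1 / 2 - 1 / crit N) * (t ^ crit N * Pp (crit N) v) := by
    intro t ht
    have ht0 : 0 < t := by linarith
    have hgap : 0 < (t ^ (crit N - 2) - 1) * Pp (crit N) v :=
      mul_pos (sub_pos.2 (Real.one_lt_rpow ht (by linarith))) hB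
    obtain ⟨R, hR1, hR⟩ : ∃ R : ℝ, ν * Ll v v * (R ^ 2)⁻¹ <
        (t ^ (crit N - 2) - 1) * Pp (crit N) v ∧ 0 < R := by
      have := ((tendsto_pow_atTop (α := ℝ) two_ne_zero).inv_tendsto_atTop).const_mul (ν * Ll v v)
      rw [mul_zero] at this
      exact ((this.eventually_lt_const hgap).and (eventually_gt_atTop 0)).exists
    set a := t * R ^ (((N : ℝ) - 2) / 2) with ha
    have ha0 : 0 < a := by positivity
    have ha2 : a ^ 2 = t ^ 2 * (R ^ N * (R ^ 2)⁻¹) := by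
      rw [ha, mul_pow, ← Real.rpow_two (R ^ _), ← Real.rpow_mul hR.le,
        div_mul_cancel₀ _ two_ne_zero, Real.rpow_sub hR, Real.rpow_two, Real.rpow_natCast,
        div_eq_mul_inv]
    have has : a ^ crit N = t ^ crit N * R ^ N := by
      rw [ha, Real.mul_rpow ht0.le (by positivity), ← Real.rpow_mul hR.le, ← Real.rpow_natCast]
      congr 2
      unfold crit
      have : (N : ℝ) - 2 ≠ 0 := by linarith
      field_simp
    have hP : Pp (crit N) ((v.dil R hR).smul a) = t ^ crit N * Pp (crit N) v := by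
      rw [Pp_smul, abs_of_pos ha0, Pp_dil, has]
      field_simp
    have := H.level_le' h0 h1 (u := v.smul 0) (v := (v.dil R hR).smul a)
      (by rw [H.Pp_zero, hP]; positivity)
      (by
        unfold Jf
        rw [Qb_zero, H.Pp_zero, hP, Dd_smul_left, Dd_smul_right, Ll_smul_left, Ll_smul_right,
          Dd_dil, Ll_dil, rpow_eq_sq_mul ht0]
        have e1 : a * (a * (R ^ 2 * (R ^ N)⁻¹ * Dd v v)) = t ^ 2 * Dd v v := by
          rw [← mul_assoc, ← sq, ha2]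
          field_simp
        have e2 : ν * (a * (a * ((R ^ N)⁻¹ * Ll v v))) = t ^ 2 * (ν * Ll v v * (R ^ 2)⁻¹) := by
          rw [← mul_assoc a, ← sq, ha2]
          field_simp
        rw [e1, e2]
        nlinarith [mul_le_mul_of_nonneg_left hR1.le (sq_nonneg t),
          mul_le_mul_of_nonneg_left hD (sq_nonneg t)])
    unfold Phi at this
    rwa [H.Pp_zero, hP, mul_zero, zero_add] at this
  have lim : Tendsto (fun t : ℝ => (1 / 2 - 1 / crit N) * (t ^ crit N * Pp (crit N) v)) (𝓝[>] 1)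
      (𝓝 ((1 / 2 - 1 / crit N) * (1 ^ crit N * Pp (crit N) v))) :=
    ((((Real.continuous_rpow_const (by linarith)).tendsto 1).mul_const _).const_mul _).mono_left
      nhdsWithin_le_nhds
  rw [Real.one_rpow, one_mul] at lim
  exact ge_of_tendsto lim (eventually_nhdsWithin_of_forall key)

lemma Hyp.Pp_le (H : Hyp N p μ ν) : ∃ K, 0 < K ∧ ∀ u : H1 N, 0 < Dd u u + Ll u u →
    Pp (p + 1) u ≤ K * (Dd u u + Ll u u) ^ ((p + 1) / 2) := by
  obtain ⟨K, hK, h⟩ := sobolev_Pp H.hN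
  have hs := H.s2
  refine ⟨K + 1, by linarith, fun u hn => ?_⟩
  have hD := Dd_nonneg u
  have hL := Ll_nonneg u
  set n := Dd u u + Ll u u with hndef
  refine (Pp_interp H.hN (M := n ^ (1 / 2 : ℝ)) H.q2.le H.qs.le (by positivity) u).trans ?_
  calc (n ^ (1 / 2 : ℝ)) ^ (p + 1 - crit N) * Pp (crit N) u +
        (n ^ (1 / 2 : ℝ)) ^ (p + 1 - 2) * Ll u u
      ≤ (n ^ (1 / 2 : ℝ)) ^ (p + 1 - crit N) * (K * n ^ (crit N / 2)) +
        (n ^ (1 / 2 : ℝ)) ^ (p + 1 - 2) * n ^ (1 : ℝ) := by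
        gcongr
        · refine (h u).2.trans ?_
          gcongr
          linarith
        · rw [Real.rpow_one]
          linarith
    _ = (K + 1) * n ^ ((p + 1) / 2) := by
        rw [← Real.rpow_mul hn.le, ← Real.rpow_mul hn.le, mul_left_comm, ← Real.rpow_add hn,
          ← Real.rpow_add hn]
        ring_nf

/-- Elements of the Nehari set at or below the critical level do not vanish in `L^(p+1)`. -/
lemma Hyp.nonvanishing (H : Hyp N p μ ν) {lam1 : ℝ} (h1 : lam1 < √(μ * ν)) :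
    ∃ δ, 0 < δ ∧ ∀ lam, 0 ≤ lam → lam ≤ lam1 → ∀ u v : H1 N,
      0 < Pp (p + 1) u + Pp (crit N) v → Jf p μ ν lam u v = 0 →
      Phi p u v ≤ sInf (critSet N) → δ ≤ Pp (p + 1) u := by
  obtain ⟨c, hc, hco⟩ := coercive (N := N) H.hμ H.hν h1
  obtain ⟨K, hK, hP⟩ := H.Pp_le
  have hq := H.q2
  have hs := H.s2
  set c' := min c 1 / 2 with hc'
  have hc0 : 0 < c' := half_pos (lt_min hc one_pos)
  have hc1 : 2 * c' ≤ c := by rw [hc']; linarith [min_le_left c 1]
  have hc2 : 2 * c' ≤ 1 := by rw [hc']; linarith [min_le_right c 1]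
  refine ⟨c' * (c' / K) ^ ((p + 1) / 2 - 1)⁻¹, by positivity, fun lam h0 hl u v hnz hJ hΦ => ?_⟩
  have hDu := Dd_nonneg u
  have hLu := Ll_nonneg u
  have hLv := Ll_nonneg v
  have hzero : Dd u u + Ll u u = 0 → Pp (p + 1) u = 0 := fun h =>
    (Pp_eq_zero_iff H.hN hq.le H.qs.le u).2 ((Ll_eq_zero_iff u).1 (by linarith))
  rcases le_or_gt (Pp (p + 1) u) (c' * (Dd u u + Ll u u)) with hA | hA
  · exfalso
    have e1 := hco lam h0 hl u v
    unfold Jf at hJ
    have e2 : Dd v v + c * Ll v v + c' * (Dd u u + Ll u u) ≤ Pp (crit N) v := by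
      nlinarith [mul_le_mul_of_nonneg_right hc1 hLu, mul_le_mul_of_nonneg_right hc2 hDu]
    have hDv := Dd_nonneg v
    have e3 := mul_nonneg hc.le hLv
    have e4 := mul_nonneg hc0.le (add_nonneg hDu hLu)
    have hB : 0 < Pp (crit N) v := by
      refine lt_of_le_of_ne (Pp_nonneg _ _) fun h => ?_
      have : c' * (Dd u u + Ll u u) = 0 := by linarith
      have := hzero ((mul_eq_zero.1 this).resolve_left hc0.ne')
      linarith
    have hLv' : 0 < Ll v v := by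
      refine lt_of_le_of_ne hLv fun h => hB.ne' ?_
      exact (Pp_eq_zero_iff H.hN hs.le le_rfl v).2 ((Ll_eq_zero_iff v).1 h.symm)
    have hlt : Dd v v < Pp (crit N) v := by nlinarith [mul_pos hc hLv']
    have hD := Dd_pos H.hN hB
    set t := (Dd v v / Pp (crit N) v) ^ (crit N - 2)⁻¹ with ht
    have ht0 : 0 < t := by positivity
    have ht1 : t < 1 := Real.rpow_lt_one (by positivity) ((div_lt_one hB).2 hlt)
      (inv_pos.2 (by linarith))
    have ht2 : t ^ (crit N - 2) = Dd v v / Pp (crit N) v :=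
      Real.rpow_inv_rpow (by positivity) (by linarith)
    obtain ⟨b, _, hb⟩ := critSet_bdd H.hN
    have e5 : sInf (critSet N) ≤ (1 / 2 - 1 / crit N) * Pp (crit N) (v.smul t) := by
      refine csInf_le ⟨b, hb⟩ ⟨v.smul t, ?_, ?_, rfl⟩
      · rw [Pp_smul, abs_of_pos ht0]
        positivity
      · rw [Pp_smul, abs_of_pos ht0, Dd_smul_left, Dd_smul_right, rpow_eq_sq_mul ht0, ht2]
        apply le_of_eq
        field_simp
    rw [Pp_smul, abs_of_pos ht0] at e5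
    have e6 : t ^ crit N < 1 := Real.rpow_lt_one ht0.le ht1 (by linarith)
    have e7 := mul_nonneg H.a_pos.le (Pp_nonneg (p + 1) u)
    unfold Phi at hΦ
    nlinarith [mul_pos H.b_pos (mul_pos (sub_pos.2 e6) hB)]
  · have hn : 0 < Dd u u + Ll u u := by
      refine lt_of_le_of_ne (add_nonneg hDu hLu) fun h => ?_
      rw [hzero h.symm, ← h, mul_zero] at hA
      exact lt_irrefl _ hA
    refine le_trans ?_ hA.le
    gcongr
    exact lower_of_rpow hc0 hK hn (by linarith) (hA.le.trans (hP u hn))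

lemma Hyp.nehari_nonempty (H : Hyp N p μ ν) (h0 : 0 ≤ lam) (h1 : lam < √(μ * ν)) :
    (nehari N p μ ν lam).Nonempty := by
  have hs := H.s2
  have hq := H.q2
  obtain ⟨v, hv⟩ := exists_Pp_pos H.hN
  have hB := hv _ hs.le le_rfl
  have hA := Pp_nonneg (p + 1) v
  obtain ⟨b, hb1, hb⟩ := ((((tendsto_rpow_atTop (by linarith : 0 < crit N - 2)).atTop_mul_const
    hB).eventually_ge_atTop (Qb μ ν lam v v v v)).and (eventually_gt_atTop 0)).exists
  obtain ⟨t, _, _, h3, h4⟩ := H.project (lam := lam) (u := v) (v := v) le_rfl hb.le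
    (by
      rw [Real.zero_rpow (by linarith), Real.zero_rpow (by linarith)]
      simpa using H.Qb_pos h0 h1 (u := v) (v := v) (by linarith))
    (by
      have : 0 ≤ b ^ (p + 1 - 2) * Pp (p + 1) v := by positivity
      linarith)
  exact ⟨_, (H.mem_nehari _ _).2 ⟨h3, h4⟩⟩

lemma Hyp.level_anti (H : Hyp N p μ ν) {lam' : ℝ} (h0 : 0 ≤ lam) (hl : lam ≤ lam')
    (h1 : lam' < √(μ * ν)) : level N p μ ν lam' ≤ level N p μ ν lam := by
  refine le_csInf ((H.nehari_nonempty h0 (hl.trans_lt h1)).image _) ?_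
  rintro _ ⟨⟨u, v⟩, hw, rfl⟩
  obtain ⟨hnz, hJ⟩ := (H.mem_nehari u v).1 hw
  simp only [energy_eq, hJ, zero_div, zero_add]
  rcases le_total 0 (Ll u v) with h | h
  · apply H.level_le' (h0.trans hl) h1 hnz
    unfold Jf Qb at hJ ⊢
    rw [Ll_comm v u] at hJ ⊢
    nlinarith [mul_le_mul_of_nonneg_right hl h]
  · have hP : Pp (crit N) (v.smul (-1)) = Pp (crit N) v := by simp [Pp_smul]
    have := H.level_le' (h0.trans hl) h1 (u := u) (v := v.smul (-1)) (by rwa [hP]) (by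
      unfold Jf Qb at hJ ⊢
      simp only [hP, Dd_smul_left, Dd_smul_right, Ll_smul_left, Ll_smul_right]
      rw [Ll_comm v u] at hJ ⊢
      nlinarith [mul_nonpos_of_nonneg_of_nonpos (add_nonneg h0 (h0.trans hl)) h])
    unfold Phi at this ⊢
    rwa [hP] at this

lemma Hyp.small_level (H : Hyp N p μ ν) :
    ∃ lam, 0 < lam ∧ lam < √(μ * ν) ∧ level N p μ ν lam < sInf (critSet N) := by
  have hs := H.s2
  have hq := H.q2
  have hqs := H.qs
  have hμ := H.hμ
  have hν := H.hν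
  have ha := H.a_pos
  have hb := H.b_pos
  have hN3 : (3 : ℝ) ≤ N := by exact_mod_cast H.hN
  obtain ⟨φ, hφ⟩ := exists_Pp_pos H.hN
  have hA := hφ _ hq.le hqs.le
  have hB := hφ _ hs.le le_rfl
  have hD := Dd_nonneg φ
  have hL := Ll_nonneg φ
  set κ := √(√ν ^ (p + 1) * Pp (p + 1) φ / ((μ + ν) * Dd φ φ + 1)) with hκ
  have hκ0 : 0 < κ := by positivity
  have hκ2 : κ ^ 2 * ((μ + ν) * Dd φ φ + 1) = √ν ^ (p + 1) * Pp (p + 1) φ := by
    rw [hκ, Real.sq_sqrt (by positivity)]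
    field_simp
  set e := p + 1 - (p + 1 - 2) / 2 * N with he
  have he0 : 0 < e := by
    unfold crit at hqs
    rw [lt_div_iff₀ (by linarith)] at hqs
    rw [he]
    nlinarith
  set C := (κ ^ N)⁻¹ * ((1 / 2 - 1 / (p + 1)) * (√ν ^ (p + 1) * Pp (p + 1) φ) +
    (1 / 2 - 1 / crit N) * (√μ ^ crit N * Pp (crit N) φ)) with hC
  obtain ⟨a, ⟨ha1, ha2⟩, ha0⟩ : ∃ a : ℝ, (a ^ e * C < sInf (critSet N) ∧ a < 1) ∧ 0 < a := by
    have h1 : Tendsto (fun a : ℝ => a ^ e * C) (𝓝[>] 0) (𝓝 0) := by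
      have := ((Real.continuousAt_rpow_const 0 e (Or.inr he0.le)).tendsto).mul_const C
      rw [Real.zero_rpow he0.ne', zero_mul] at this
      exact this.mono_left nhdsWithin_le_nhds
    exact (((h1.eventually_lt_const (cinf_pos H.hN)).and
      ((eventually_lt_nhds one_pos).filter_mono nhdsWithin_le_nhds)).and
      self_mem_nhdsWithin).exists
  set R := κ * a ^ ((p + 1 - 2) / 2) with hR
  have hR0 : 0 < R := by positivity
  have hR2 : R ^ 2 = κ ^ 2 * a ^ (p + 1 - 2) := by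
    rw [hR, mul_pow, ← Real.rpow_two (a ^ _), ← Real.rpow_mul ha0.le, div_mul_cancel₀ _ two_ne_zero]
  have hRN : a ^ (p + 1) * (R ^ N)⁻¹ = a ^ e * (κ ^ N)⁻¹ := by
    rw [hR, mul_pow, ← Real.rpow_natCast (a ^ _), ← Real.rpow_mul ha0.le, he, Real.rpow_sub ha0]
    field_simp
  have hsq : 0 < √(μ * ν) := by positivity
  obtain ⟨lam, ⟨hl1, hl0⟩, hl2⟩ : ∃ lam : ℝ,
      (2 * √(μ * ν) * (√(μ * ν) - lam) * Ll φ φ < R ^ 2 ∧ 0 < lam) ∧ lam < √(μ * ν) := by
    have h1 : Tendsto (fun lam : ℝ => 2 * √(μ * ν) * (√(μ * ν) - lam) * Ll φ φ) (𝓝[<] √(μ * ν))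
        (𝓝 0) := by
      have : Continuous (fun lam : ℝ => 2 * √(μ * ν) * (√(μ * ν) - lam) * Ll φ φ) := by fun_prop
      have := this.tendsto (√(μ * ν))
      rw [sub_self, mul_zero, zero_mul] at this
      exact this.mono_left nhdsWithin_le_nhds
    exact (((h1.eventually_lt_const (by positivity)).and
      ((eventually_gt_nhds hsq).filter_mono nhdsWithin_le_nhds)).and self_mem_nhdsWithin).exists
  refine ⟨lam, hl0, hl2, lt_of_le_of_lt ?_ ha1⟩
  have hPu : Pp (p + 1) (((φ.dil R hR0).smul (√ν)).smul a) =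
      a ^ (p + 1) * (R ^ N)⁻¹ * (√ν ^ (p + 1) * Pp (p + 1) φ) := by
    rw [Pp_smul, Pp_smul, Pp_dil, abs_of_pos ha0, abs_of_nonneg (Real.sqrt_nonneg _)]
    ring
  have hPv : Pp (crit N) (((φ.dil R hR0).smul (√μ)).smul a) =
      a ^ crit N * (R ^ N)⁻¹ * (√μ ^ crit N * Pp (crit N) φ) := by
    rw [Pp_smul, Pp_smul, Pp_dil, abs_of_pos ha0, abs_of_nonneg (Real.sqrt_nonneg _)]
    ring
  refine (H.level_le' hl0.le hl2 (u := ((φ.dil R hR0).smul (√ν)).smul a)
    (v := ((φ.dil R hR0).smul (√μ)).smul a) (by rw [hPu, hPv]; positivity) ?_).trans ?_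
  · unfold Jf
    rw [Qb_smul, hPu, hPv, rpow_eq_sq_mul ha0 (p + 1)]
    have hQ : Qb μ ν lam ((φ.dil R hR0).smul (√ν)) ((φ.dil R hR0).smul (√μ))
        ((φ.dil R hR0).smul (√ν)) ((φ.dil R hR0).smul (√μ)) = (R ^ N)⁻¹ *
          ((μ + ν) * Dd φ φ * R ^ 2 + 2 * √(μ * ν) * (√(μ * ν) - lam) * Ll φ φ) := by
      simp only [Qb, Dd_smul_left, Dd_smul_right, Ll_smul_left, Ll_smul_right, Dd_dil, Ll_dil]
      rw [Real.sqrt_mul hμ.le]
      have e1 := Real.mul_self_sqrt hμ.le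
      have e2 := Real.mul_self_sqrt hν.le
      set x := √μ
      set y := √ν
      rw [← e1, ← e2]
      ring
    rw [hQ, ← hκ2]
    have e1 : 0 ≤ a ^ crit N * (R ^ N)⁻¹ * (√μ ^ crit N * Pp (crit N) φ) := by positivity
    have e2 : a ^ 2 * a ^ (p + 1 - 2) * (R ^ N)⁻¹ * (κ ^ 2 * ((μ + ν) * Dd φ φ + 1)) =
        a ^ 2 * ((R ^ N)⁻¹ * ((μ + ν) * Dd φ φ * R ^ 2 + R ^ 2)) := by
      rw [hR2]
      ring
    rw [e2]
    have e3 : a ^ 2 * ((R ^ N)⁻¹ * ((μ + ν) * Dd φ φ * R ^ 2 +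
        2 * √(μ * ν) * (√(μ * ν) - lam) * Ll φ φ)) ≤
        a ^ 2 * ((R ^ N)⁻¹ * ((μ + ν) * Dd φ φ * R ^ 2 + R ^ 2)) := by gcongr
    linarith
  · unfold Phi
    rw [hPu, hPv, hC]
    have e1 : a ^ crit N ≤ a ^ (p + 1) := Real.rpow_le_rpow_of_exponent_ge ha0 ha2.le hqs.le
    calc (1 / 2 - 1 / (p + 1)) * (a ^ (p + 1) * (R ^ N)⁻¹ * (√ν ^ (p + 1) * Pp (p + 1) φ)) +
          (1 / 2 - 1 / crit N) * (a ^ crit N * (R ^ N)⁻¹ * (√μ ^ crit N * Pp (crit N) φ))
        ≤ (1 / 2 - 1 / (p + 1)) * (a ^ (p + 1) * (R ^ N)⁻¹ * (√ν ^ (p + 1) * Pp (p + 1) φ)) +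
          (1 / 2 - 1 / crit N) * (a ^ (p + 1) * (R ^ N)⁻¹ * (√μ ^ crit N * Pp (crit N) φ)) := by
          gcongr
      _ = _ := by rw [hRN]; ring

lemma Hyp.hasGroundState_of_lt (H : Hyp N p μ ν) (h0 : 0 ≤ lam) (h1 : lam < √(μ * ν))
    (hlt : level N p μ ν lam < sInf (critSet N)) : HasGroundState N p μ ν lam := by
  obtain ⟨x, -, hx, hxm⟩ := exists_seq_tendsto_sInf
    ((H.nehari_nonempty h0 h1).image (fun w : H1 N × H1 N => energy p μ ν lam w.1 w.2))
    ⟨0, by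
      rintro _ ⟨⟨a, b⟩, hw, rfl⟩
      have := ((H.mem_nehari a b).1 hw).2
      simp only [energy_eq, this]
      linarith [H.Phi_nonneg a b]⟩
  choose w hw hwx using hxm
  change Tendsto x atTop (𝓝 (level N p μ ν lam)) at hx
  obtain ⟨n0, hn0⟩ := eventually_atTop.1 (hx.eventually_lt_const hlt)
  obtain ⟨δ, hδ, hnv⟩ := H.nonvanishing h1
  have hm : ∀ n, 0 < Pp (p + 1) (w n).1 + Pp (crit N) (w n).2 ∧ Jf p μ ν lam (w n).1 (w n).2 = 0 :=
    fun n => (H.mem_nehari _ _).1 (hw n)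
  have hΦ : ∀ n, Phi p (w n).1 (w n).2 = x n := by
    intro n
    rw [← hwx n]
    simp only [energy_eq, (hm n).2, zero_div, zero_add]
  obtain ⟨U, V, hM, hE⟩ := H.exists_minimizer h0 h1 (fun n => (w (n + n0)).1)
    (fun n => (w (n + n0)).2) (fun n => x (n + n0) - level N p μ ν lam)
    (by simpa using (hx.comp (tendsto_add_atTop_nat n0)).sub_const (level N p μ ν lam))
    (by simp only [(hm _).2]; exact tendsto_const_nhds)
    (fun n => by rw [hΦ]; linarith) hδ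
    (fun n => hnv lam h0 le_rfl _ _ (hm _).1 (hm _).2
      (by rw [hΦ]; exact (hn0 _ (Nat.le_add_left _ _)).le))
  exact ⟨U, V, hM, H.critical hM hE, hE⟩

theorem Hyp.threshold (H : Hyp N p μ ν) :
    {lam | 0 < lam ∧ lam < √(μ * ν) ∧ HasGroundState N p μ ν lam}.Nonempty ∧
    HasGroundState N p μ ν
      (sInf {lam | 0 < lam ∧ lam < √(μ * ν) ∧ HasGroundState N p μ ν lam}) := by
  have hne : {lam | 0 < lam ∧ lam < √(μ * ν) ∧ HasGroundState N p μ ν lam}.Nonempty := by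
    obtain ⟨lam, h0, h1, h2⟩ := H.small_level
    exact ⟨lam, h0, h1, H.hasGroundState_of_lt h0.le h1 h2⟩
  refine ⟨hne, ?_⟩
  have hbdd : BddBelow {lam | 0 < lam ∧ lam < √(μ * ν) ∧ HasGroundState N p μ ν lam} :=
    ⟨0, fun _ h => h.1.le⟩
  obtain ⟨l, hanti, hl, hlm⟩ := exists_seq_tendsto_sInf hne hbdd
  have h0 : 0 ≤ sInf {lam | 0 < lam ∧ lam < √(μ * ν) ∧ HasGroundState N p μ ν lam} :=
    le_csInf hne fun _ h => h.1.le
  have hle : ∀ n, sInf {lam | 0 < lam ∧ lam < √(μ * ν) ∧ HasGroundState N p μ ν lam} ≤ l n :=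
    fun n => csInf_le hbdd (hlm n)
  set L := sInf {lam | 0 < lam ∧ lam < √(μ * ν) ∧ HasGroundState N p μ ν lam} with hL
  have h1 : L < √(μ * ν) := (hle 0).trans_lt (hlm 0).2.1
  choose u v hM hcr hE using fun n => (hlm n).2.2
  have hm := fun n => (H.mem_nehari _ _).1 (hM n)
  have hΦ : ∀ n, Phi p (u n) (v n) = level N p μ ν (l n) := by
    intro n
    rw [← hE n]
    simp only [energy_eq, (hm n).2, zero_div, zero_add]
  have hΦc : ∀ n, Phi p (u n) (v n) ≤ sInf (critSet N) := fun n => by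
    rw [hΦ]
    exact H.level_le_cinf (hlm n).1.le (hlm n).2.1
  obtain ⟨δ, hδ, hnv⟩ := H.nonvanishing (hlm 0).2.1
  obtain ⟨c, hc, hco⟩ := coercive (N := N) H.hμ H.hν (hlm 0).2.1
  have ha := H.a_pos
  have hb := H.b_pos
  set C := (sInf (critSet N) / (1 / 2 - 1 / (p + 1)) + sInf (critSet N) / (1 / 2 - 1 / crit N)) / c
    with hC
  have hLb : ∀ n, |2 * Ll (u n) (v n)| ≤ C := by
    intro n
    have e1 := hΦc n
    unfold Phi at e1
    have e2 : Pp (p + 1) (u n) ≤ sInf (critSet N) / (1 / 2 - 1 / (p + 1)) := by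
      rw [le_div_iff₀ ha]
      linarith [mul_nonneg hb.le (Pp_nonneg (crit N) (v n))]
    have e3 : Pp (crit N) (v n) ≤ sInf (critSet N) / (1 / 2 - 1 / crit N) := by
      rw [le_div_iff₀ hb]
      linarith [mul_nonneg ha.le (Pp_nonneg (p + 1) (u n))]
    have e4 := hco (l n) (hlm n).1.le (hanti (Nat.zero_le n)) (u n) (v n)
    have e5 := (hm n).2
    unfold Jf at e5
    have e6 : Ll (u n) (u n) + Ll (v n) (v n) ≤ C := by
      rw [hC, le_div_iff₀ hc]
      linarith [Dd_nonneg (u n), Dd_nonneg (v n)]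
    have e7 := Ll_sq_le (u n) (v n) 1 1
    have e8 := Ll_sq_le (u n) (v n) 1 (-1)
    rw [abs_le]
    constructor <;> linarith
  obtain ⟨U, V, hM', hE'⟩ := H.exists_minimizer h0 h1 u v (fun _ => 0) tendsto_const_nhds
    (by
      have t1 : Tendsto (fun n => |l n - L| * C) atTop (𝓝 0) := by
        simpa using (hl.sub_const L).abs.mul_const C
      refine squeeze_zero_norm (fun n => ?_) t1
      have e1 : Jf p μ ν L (u n) (v n) = (l n - L) * (2 * Ll (u n) (v n)) := by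
        have := (hm n).2
        unfold Jf Qb at this ⊢
        rw [Ll_comm (v n) (u n)] at this ⊢
        linarith
      rw [e1, Real.norm_eq_abs, abs_mul]
      gcongr
      exact hLb n)
    (fun n => by
      rw [hΦ, add_zero]
      exact H.level_anti h0 (hle n) (hlm n).2.1) hδ
    (fun n => hnv (l n) (hlm n).1.le (hanti (Nat.zero_le n)) _ _ (hm n).1 (hm n).2 (hΦc n))
  exact ⟨U, V, hM', H.critical hM' hE', hE'⟩

end Pool.Agent.P.MP_593b7e_an
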